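import Pool.Agent.Helper73.ETSP.Defs

/-!
# The encodings of the prelude and of the library
-/

set_option autoImplicit false

namespace Pool.Agent.Helper73.ETSP

open N68a2faeb Pool.Agent.Helper36.PT

theorem fr_eq_delimit (w : List Bool) : fr w = N487b59b3.delimit w := by
  induction w with
  | nil => rfl
  | cons c w ih => simp only [fr, N487b59b3.delimit, ih]

theorem encL_eq {α β : Type} [Enc α] [N487b59b3 β] (g : β → α)
    (hg : ∀ b, enc (g b) = N487b59b3.bitEncode b) (l : List β) :
    enc (l.map g) = N487b59b3.bitEncode l := by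
  have key : ∀ l : List β, encL (l.map g) =
      ((l.map N487b59b3.bitEncode).map N487b59b3.delimit).flatten := by
    intro l
    induction l with
    | nil => rfl
    | cons b l ih =>
      rw [List.map_cons, encL, ih, hg, fr_eq_delimit]
      rfl
  exact key l

theorem enc_pair_eq {α β γ δ : Type} [Enc α] [Enc β] [N487b59b3 γ] [N487b59b3 δ] (a : α) (b : β)
    (c : γ) (e : δ) (h1 : enc a = N487b59b3.bitEncode c) (h2 : enc b = N487b59b3.bitEncode e) :
    enc (a, b) = N487b59b3.bitEncode (c, e) := by
  change fr (enc a) ++ enc b = N487b59b3.delimit (N487b59b3.bitEncode c) ++ N487b59b3.bitEncode e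
  rw [h1, h2, fr_eq_delimit]

theorem conv_bn (n : ℕ) : enc (BN.mk n) = N487b59b3.bitEncode n := rfl

theorem conv_bz (z : ℤ) : enc (BZ.mk z) = N487b59b3.bitEncode z := by
  change fr (Computability.encodeNat z.toNat) ++ Computability.encodeNat (-z).toNat =
    N487b59b3.delimit (Computability.encodeNat z.toNat) ++ Computability.encodeNat (-z).toNat
  rw [fr_eq_delimit]

theorem conv_bool (b : Bool) : enc b = N487b59b3.bitEncode b := rfl

theorem conv_listBool (l : List Bool) : enc l = N487b59b3.bitEncode l := by
  have := encL_eq (fun b : Bool => b) conv_bool l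
  rwa [List.map_id'] at this

/-- the two languages agree if the sets correspond to each other -/
theorem lang_eq {α β : Type} [N487b59b3 α] [Enc β] (S : Set α) (T : Set β) (f : α → β) (g : β → α)
    (hf : ∀ a, enc (f a) = N487b59b3.bitEncode a) (hfg : ∀ b, f (g b) = b)
    (hT : ∀ b, b ∈ T ↔ g b ∈ S) (hgf : ∀ a, g (f a) = a) : lang S = langE T := by
  funext x
  unfold lang langE
  rw [decide_eq_decide]
  constructor
  · rintro ⟨a, ha, hx⟩
    refine ⟨f a, ?_, ?_⟩
    · rw [hT, hgf]
      exact ha
    · rw [hf, hx]
  · rintro ⟨b, hb, hx⟩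
    refine ⟨g b, (hT b).mp hb, ?_⟩
    rw [← hf, hfg, hx]

theorem lang_ssp (S : Set (List ℕ × ℤ)) : lang S =
    langE {x : List BN × BZ | (x.1.map BN.val, x.2.val) ∈ S} := by
  refine lang_eq S _ (fun I => (I.1.map BN.mk, BZ.mk I.2)) (fun x => (x.1.map BN.val, x.2.val))
    (fun I => enc_pair_eq _ _ _ _ (encL_eq BN.mk conv_bn _) (conv_bz _)) (fun b => ?_)
    (fun b => Iff.rfl) (fun a => ?_)
  · apply Prod.ext
    · simp only [List.map_map]
      exact List.map_id _
    · rfl
  · apply Prod.ext
    · simp only [List.map_map]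
      exact List.map_id _
    · rfl

theorem lang_tsp (S : Set (List (List ℤ) × ℤ)) : lang S =
    langE {x : List (List BZ) × BZ | (x.1.map fun p => p.map BZ.val, x.2.val) ∈ S} := by
  refine lang_eq S _ (fun I => (I.1.map fun p => p.map BZ.mk, BZ.mk I.2))
    (fun x => (x.1.map fun p => p.map BZ.val, x.2.val))
    (fun I => enc_pair_eq _ _ _ _ (encL_eq _ (encL_eq BZ.mk conv_bz) _) (conv_bz _)) (fun b => ?_)
    (fun b => Iff.rfl) (fun a => ?_)
  · apply Prod.ext
    · simp only [List.map_map]
      refine (List.map_congr_left fun p _ => ?_).trans (List.map_id _)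
      simp only [Function.comp, List.map_map]
      exact List.map_id _
    · rfl
  · apply Prod.ext
    · simp only [List.map_map]
      refine (List.map_congr_left fun p _ => ?_).trans (List.map_id _)
      simp only [Function.comp, List.map_map]
      exact List.map_id _
    · rfl

end Pool.Agent.Helper73.ETSP
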