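import Mathlib

/-!
# A closed polygon which is an optimal tour

The combinatorial heart of the reduction from sums of square roots to the Euclidean traveling
salesman problem: if a cyclic sequence consists of a chain in which every distance dominates the
steps in between, and of return points which are far from everything, then the cyclic order is an
optimal tour.
-/

set_option autoImplicit false

namespace Pool.Agent.Helper73.ETSP

open Finset

/-- If the family `e` has at least as many large members as `ℓ`, for every threshold, then its sum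
is at least the sum of `ℓ`. -/
theorem sum_le_of_count {ι κ : Type} [Fintype ι] [Fintype κ] (ℓ : ι → ℝ) (e : κ → ℝ)
    (he : ∀ t, 0 ≤ e t)
    (h : ∀ r, 0 < r → (univ.filter (fun i => r ≤ ℓ i)).card ≤
      (univ.filter (fun t => r ≤ e t)).card) : ∑ i, ℓ i ≤ ∑ t, e t := by
  classical
  let ι' := {i : ι // 0 < ℓ i}
  let T : ι' → Finset κ := fun i => univ.filter (fun t => ℓ i.1 ≤ e t)
  have hall : ∀ s : Finset ι', s.card ≤ (s.biUnion T).card := by
    intro s
    rcases s.eq_empty_or_nonempty with hs | hs
    · rw [hs]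
      simp
    · obtain ⟨i0, hi0, hmin⟩ := s.exists_min_image (fun i => ℓ i.1) hs
      calc s.card = (s.map (Function.Embedding.subtype _)).card := (card_map _).symm
        _ ≤ (univ.filter (fun i => ℓ i0.1 ≤ ℓ i)).card := by
            apply card_le_card
            intro i hi
            rw [mem_map] at hi
            obtain ⟨j, hj, rfl⟩ := hi
            rw [mem_filter]
            exact ⟨mem_univ _, hmin j hj⟩
        _ ≤ (univ.filter (fun t => ℓ i0.1 ≤ e t)).card := h _ i0.2
        _ ≤ (s.biUnion T).card := card_le_card (subset_biUnion_of_mem T hi0)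
  obtain ⟨f, hf, hfT⟩ := (Finset.all_card_le_biUnion_card_iff_exists_injective T).mp hall
  calc ∑ i, ℓ i ≤ ∑ i ∈ univ.filter (fun i => 0 < ℓ i), ℓ i := by
        rw [← sum_filter_add_sum_filter_not univ (fun i => 0 < ℓ i)]
        have : ∑ i ∈ univ.filter (fun i => ¬ 0 < ℓ i), ℓ i ≤ 0 :=
          sum_nonpos fun i hi => not_lt.mp (mem_filter.mp hi).2
        linarith
    _ = ∑ i : ι', ℓ i.1 := by
        rw [← sum_subtype_eq_sum_filter]
        apply sum_bij (fun (i : {x // 0 < ℓ x}) _ => (i : ι'))
        · intro a _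
          exact mem_univ _
        · intro a _ b _ hab
          exact hab
        · intro b _
          exact ⟨b, by simp, rfl⟩
        · intro a _
          rfl
    _ ≤ ∑ i : ι', e (f i) := sum_le_sum fun i _ => (mem_filter.mp (hfT i)).2
    _ = ∑ t ∈ univ.image f, e t := by
        rw [sum_image (fun a _ b _ hab => hf hab)]
    _ ≤ ∑ t, e t := sum_le_sum_of_subset_of_nonneg (subset_univ _) fun t _ _ => he t

open Fin.NatCast in
/-- a cyclic sequence leaves each of its classes -/
theorem exists_exit {n : ℕ} (c : Fin (n + 1) → ℕ) (k : ℕ) (h1 : ∃ t, c t = k)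
    (h2 : ∃ t, c t ≠ k) : ∃ t, c t = k ∧ c (t + 1) ≠ k := by
  by_contra hcon
  push Not at hcon
  obtain ⟨t0, ht0⟩ := h1
  obtain ⟨t1, ht1⟩ := h2
  have key : ∀ j : ℕ, c (t0 + (j : Fin (n + 1))) = k := by
    intro j
    induction j with
    | zero => simpa using ht0
    | succ j ih =>
      have h3 := hcon _ ih
      rw [Nat.cast_succ, ← add_assoc]
      exact h3
  have h3 := key (t1 - t0).val
  rw [Fin.cast_val_eq_self, add_sub_cancel] at h3
  exact ht1 h3

theorem count_exits {n : ℕ} (c : Fin (n + 1) → ℕ) (K : Finset ℕ) (hK : ∀ k ∈ K, ∃ t, c t = k)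
    (h2 : 2 ≤ K.card) : K.card ≤ (univ.filter (fun t => c t ≠ c (t + 1))).card := by
  classical
  have hex : ∀ k ∈ K, ∃ t, c t = k ∧ c (t + 1) ≠ k := by
    intro k hk
    refine exists_exit c k (hK k hk) ?_
    obtain ⟨k', hk', hne⟩ := Finset.exists_mem_ne (s := K) (by omega) k
    obtain ⟨t, ht⟩ := hK k' hk'
    exact ⟨t, by rw [ht]; exact hne⟩
  choose! f hf using hex
  refine card_le_card_of_injOn f (fun k hk => ?_) (fun a ha b hb hab => ?_)
  · rw [mem_coe, mem_filter]
    refine ⟨mem_univ _, ?_⟩
    rw [(hf k hk).1]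
    exact (hf k hk).2.symm
  · rw [← (hf a ha).1, ← (hf b hb).1, hab]

section polygon

variable {n : ℕ} (w : Fin (n + 1) → Fin (n + 1) → ℝ)

/-- number of the long steps before `i` -/
noncomputable def cls (r : ℝ) (i : Fin (n + 1)) : ℕ :=
  (univ.filter (fun t : Fin (n + 1) => t < i ∧ r ≤ w t (t + 1))).card

theorem cls_mono (r : ℝ) {i j : Fin (n + 1)} (h : i ≤ j) : cls w r i ≤ cls w r j := by
  apply card_le_card
  intro t ht
  rw [mem_filter] at ht ⊢
  exact ⟨mem_univ _, ht.2.1.trans_le h, ht.2.2⟩

theorem cls_lt (r : ℝ) {i j t : Fin (n + 1)} (h1 : i ≤ t) (h2 : t < j)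
    (ht : r ≤ w t (t + 1)) : cls w r i < cls w r j := by
  apply card_lt_card
  rw [ssubset_iff_of_subset]
  · refine ⟨t, ?_, ?_⟩
    · rw [mem_filter]
      exact ⟨mem_univ _, h2, ht⟩
    · rw [mem_filter]
      rintro ⟨_, h3, _⟩
      exact absurd h3 (not_lt.mpr h1)
  · intro s hs
    rw [mem_filter] at hs ⊢
    exact ⟨mem_univ _, (hs.2.1.trans_le h1).trans h2, hs.2.2⟩

theorem exists_of_cls_lt (r : ℝ) {i j : Fin (n + 1)} (h : cls w r i < cls w r j) :
    ∃ t, i ≤ t ∧ t < j ∧ r ≤ w t (t + 1) := by
  by_contra hcon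
  push Not at hcon
  refine absurd h (not_lt.mpr (card_le_card ?_))
  intro t ht
  rw [mem_filter] at ht ⊢
  refine ⟨mem_univ _, ?_, ht.2.2⟩
  by_contra h3
  exact absurd ht.2.2 (not_le.mpr (hcon t (not_lt.mp h3) ht.2.1))

/-- **The polygon is an optimal tour.** -/
theorem polygon_le (m : ℕ) (ρ : ℝ) (hw0 : ∀ i j, 0 ≤ w i j) (hw : ∀ i j, w i j = w j i)
    (hchain : ∀ i j t : Fin (n + 1), i ≤ t → t < j → j.val ≤ m → w t (t + 1) ≤ w i j)
    (hfar : ∀ i j : Fin (n + 1), i ≠ j → m < j.val → ρ ≤ w i j)
    (hρ : ∀ t, w t (t + 1) ≤ ρ) (hret : ∀ t : Fin (n + 1), m ≤ t.val → w t (t + 1) = ρ)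
    (hm : m < n) (σ : Equiv.Perm (Fin (n + 1))) :
    ∑ t, w t (t + 1) ≤ ∑ t, w (σ t) (σ (t + 1)) := by
  classical
  refine sum_le_of_count _ _ (fun t => hw0 _ _) ?_
  intro r _
  rcases lt_or_ge ρ r with hr | hr
  · have : univ.filter (fun t => r ≤ w t (t + 1)) = ∅ := by
      rw [filter_eq_empty_iff]
      intro t _
      rw [not_le]
      exact (hρ t).trans_lt hr
    rw [this]
    simp
  · let K : Finset ℕ := univ.image (cls w r)
    -- the number of classes is at least the number of long steps
    have hlast : ∀ t : Fin (n + 1), t ≠ Fin.last n → (t : Fin (n + 1)) < t + 1 := by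
      intro t ht
      exact Fin.lt_add_one_iff.mpr (Fin.lt_last_iff_ne_last.mpr ht)
    have h1 : (univ.filter (fun t => r ≤ w t (t + 1))).card ≤ K.card := by
      refine card_le_card_of_injOn (fun t => cls w r (t + 1)) (fun t _ => ?_) ?_
      · exact mem_coe.mpr (mem_image_of_mem _ (mem_univ _))
      · have hkey : ∀ a b : Fin (n + 1), r ≤ w a (a + 1) → r ≤ w b (b + 1) → a < b →
            cls w r (a + 1) ≠ cls w r (b + 1) := by
          intro a b ha hb hab
          have hal : a ≠ Fin.last n := ne_of_lt (hab.trans_le (Fin.le_last b))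
          have hab' : a + 1 ≤ b := by
            rw [Fin.le_def, Fin.val_add_one_of_lt (Fin.lt_last_iff_ne_last.mpr hal)]
            exact hab
          rcases eq_or_ne b (Fin.last n) with hbl | hbl
          · rw [hbl, Fin.last_add_one]
            exact (cls_lt w r (Fin.zero_le a) (hlast a hal) ha).ne'
          · exact ne_of_lt (cls_lt w r hab' (hlast b hbl) hb)
        intro a ha b hb hab
        rw [mem_coe, mem_filter] at ha hb
        rcases lt_trichotomy a b with h3 | h3 | h3
        · exact absurd hab (hkey a b ha.2 hb.2 h3)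
        · exact h3
        · exact absurd hab.symm (hkey b a hb.2 ha.2 h3)
    have h2 : 2 ≤ (univ.filter (fun t => r ≤ w t (t + 1))).card := by
      have h3 : ({⟨m, by omega⟩, Fin.last n} : Finset (Fin (n + 1))) ⊆
          univ.filter (fun t => r ≤ w t (t + 1)) := by
        intro t ht
        rw [mem_insert, mem_singleton] at ht
        rw [mem_filter]
        refine ⟨mem_univ _, ?_⟩
        rw [hret t (by
          rcases ht with rfl | rfl
          · exact le_rfl
          · rw [Fin.val_last]
            exact hm.le)]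
        exact hr
      calc 2 = ({⟨m, by omega⟩, Fin.last n} : Finset (Fin (n + 1))).card := by
            rw [card_pair]
            intro h4
            have := congrArg Fin.val h4
            rw [Fin.val_last] at this
            exact absurd this hm.ne
        _ ≤ _ := card_le_card h3
    have h3 := count_exits (fun t => cls w r (σ t)) K (fun k hk => by
      obtain ⟨i, _, hi⟩ := mem_image.mp hk
      exact ⟨σ.symm i, by rw [σ.apply_symm_apply]; exact hi⟩) (h2.trans h1)
    refine (h1.trans h3).trans (card_le_card ?_)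
    intro t ht
    rw [mem_filter] at ht ⊢
    refine ⟨mem_univ _, ?_⟩
    -- different classes are far apart
    have hdiff : ∀ i j : Fin (n + 1), cls w r i < cls w r j → r ≤ w i j := by
      intro i j hij
      have hlt : i < j := by
        by_contra hcon
        exact absurd hij (not_lt.mpr (cls_mono w r (not_lt.mp hcon)))
      rcases le_or_gt j.val m with hjm | hjm
      · obtain ⟨s, hs1, hs2, hs3⟩ := exists_of_cls_lt w r hij
        exact hs3.trans (hchain i j s hs1 hs2 hjm)
      · exact hr.trans (hfar i j hlt.ne hjm)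
    rcases lt_or_gt_of_ne ht.2 with h4 | h4
    · exact hdiff _ _ h4
    · rw [hw]
      exact hdiff _ _ h4

end polygon

end Pool.Agent.Helper73.ETSP
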