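import Pool.Agent.Helper73.ETSP.Ops
import Pool.Agent.Helper68.ETSP.Int
import Pool.Agent.Helper31.ETSP.Add

/-!
# The instance of `Arith`
-/

set_option autoImplicit false

namespace Pool.Agent.Helper73.ETSP

open N68a2faeb Pool.Agent.Helper36.PT

theorem arith : Arith where
  injBN := inferInstance
  injBZ := inferInstance
  bAdd := fun hf hg => PolyTime.bnAdd hf hg
  bSub := fun hf hg => PolyTime.bnSub hf hg
  bMul := fun hf hg => PolyTime.bnMul hf hg
  bSum := fun hf => PolyTime.bnSum hf
  bOf := fun hf => PolyTime.bnOfNat hf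
  bLe := fun hf hg => PolyTime.pBnLe hf hg
  zOf := fun hf => PolyTime.bzOfNat hf
  zAdd := fun hf hg => PolyTime.bzAdd hf hg
  zSub := fun hf hg => PolyTime.bzSub hf hg
  zNeg := fun hf => PolyTime.bzNeg hf
  zAbs := fun hf => PolyTime.bzNatAbs hf

end Pool.Agent.Helper73.ETSP
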