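import Pool.Agent.Helper73.ETSP.Geo

/-!
# The polygon is an optimal tour
-/

set_option autoImplicit false

namespace Pool.Agent.Helper73.ETSP

open Finset

variable (d : ℕ) (vs : List (List ℕ))

/-- A permutation of a list without repetition, as a permutation of the indices. -/
theorem exists_perm {A : Type} {N : ℕ} (p : Fin (N + 1) → A) (hp : Function.Injective p) (l : List A)
    (hl : l.Perm (List.ofFn p)) : ∃ σ : Equiv.Perm (Fin (N + 1)), l = List.ofFn fun t => p (σ t) := by
  have hlen : l.length = N + 1 := by rw [hl.length_eq, List.length_ofFn]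
  have hnd : l.Nodup := hl.nodup_iff.mpr (List.nodup_ofFn.mpr hp)
  have h1 : ∀ t : Fin (N + 1), ∃ s : Fin (N + 1), p s = l[t.val]'(by rw [hlen]; exact t.2) := by
    intro t
    have h2 : l[t.val]'(by rw [hlen]; exact t.2) ∈ List.ofFn p :=
      hl.mem_iff.mp (List.getElem_mem _)
    exact (List.mem_ofFn' p _).mp h2
  choose f hf using h1
  have hinj : Function.Injective f := by
    intro s t hst
    have h3 : l[s.val]'(by rw [hlen]; exact s.2) = l[t.val]'(by rw [hlen]; exact t.2) := by
      rw [← hf s, ← hf t, hst]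
    exact Fin.ext ((hnd.getElem_inj_iff).mp h3)
  refine ⟨Equiv.ofBijective f (Finite.injective_iff_bijective.mp hinj), ?_⟩
  apply List.ext_getElem
  · rw [hlen, List.length_ofFn]
  · intro i hi1 hi2
    rw [List.getElem_ofFn]
    exact (hf ⟨i, by rw [← hlen]; exact hi1⟩).symm

theorem sqrt_le_self_nat (a : ℕ) : Real.sqrt (a : ℝ) ≤ a := by
  rcases Nat.eq_zero_or_pos a with h | h
  · subst h
    simp
  · rw [Real.sqrt_le_left (Nat.cast_nonneg _)]
    have : (1 : ℝ) ≤ a := by exact_mod_cast h
    nlinarith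

/-- the last index -/
def lastI : ℕ := vs.length + d + (d + 3)

/-- the length of the step `i` -/
noncomputable def stp (i : ℕ) : ℝ := eDist (pt d vs i) (pt d vs (i + 1))

theorem pts_eq : pts d vs = List.ofFn fun t : Fin (lastI d vs + 1) => pt d vs t := by
  have h : vs.length + 2 * d + 4 = lastI d vs + 1 := by
    unfold lastI
    omega
  unfold pts
  rw [h]
  apply List.ext_getElem
  · simp
  · intro i h1 h2
    rw [List.getElem_map, List.getElem_ofFn, List.getElem_range]
    rfl

theorem step_le (hd : 2 ≤ d) (h1 : ∀ v ∈ vs, v.length = d) (i : ℕ) (hi : i < lastI d vs) :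
    stp d vs i ≤ rho vs := by
  unfold stp
  rcases lt_or_ge i vs.length with h | h
  · rw [step_vec d vs h (h1 _ (List.getElem_mem h))]
    refine (sqrt_le_self_nat _).trans ?_
    have h2 : nsq vs[i] ≤ (vs.map nsq).sum :=
      List.single_le_sum (fun _ _ => Nat.zero_le _) _ (List.mem_map.mpr ⟨_, List.getElem_mem h, rfl⟩)
    have h3 : nsq vs[i] ≤ rho vs := by
      unfold rho
      omega
    exact_mod_cast h3
  · obtain ⟨s, rfl⟩ : ∃ s, i = vs.length + s := ⟨i - vs.length, by omega⟩
    rcases lt_or_ge s d with h2 | h2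
    · rw [step_pad d vs h2]
      have : (0 : ℝ) ≤ col vs vs.length s := Nat.cast_nonneg _
      linarith
    · obtain ⟨r, rfl⟩ : ∃ r, s = d + r := ⟨s - d, by omega⟩
      unfold lastI at hi
      rw [← add_assoc, add_assoc (vs.length + d) r 1, step_ret d vs hd (by omega)]

theorem step_ret' (hd : 2 ≤ d) (i : ℕ) (hi : i < lastI d vs) (h : vs.length + d ≤ i) :
    stp d vs i = rho vs := by
  unfold stp
  obtain ⟨r, rfl⟩ : ∃ r, i = vs.length + d + r := ⟨i - (vs.length + d), by omega⟩
  unfold lastI at hi
  rw [add_assoc (vs.length + d) r 1, step_ret d vs hd (by omega)]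

theorem rho_pos : (0 : ℝ) < rho vs := by
  have : 0 < rho vs := by
    unfold rho
    omega
  exact_mod_cast this

/-- every step is positive -/
theorem step_pos (hd : 2 ≤ d) (h1 : ∀ v ∈ vs, v.length = d) (h2 : ∀ v ∈ vs, nsq v ≠ 0) (i : ℕ)
    (hi : i < lastI d vs) : 0 < stp d vs i := by
  rcases lt_or_ge i (vs.length + d) with h | h
  · unfold stp
    rcases lt_or_ge i vs.length with h3 | h3
    · rw [step_vec d vs h3 (h1 _ (List.getElem_mem h3))]
      have := Nat.pos_of_ne_zero (h2 _ (List.getElem_mem h3))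
      exact Real.sqrt_pos.mpr (by exact_mod_cast this)
    · obtain ⟨s, rfl⟩ : ∃ s, i = vs.length + s := ⟨i - vs.length, by omega⟩
      rw [step_pad d vs (by omega)]
      have := col_lt vs vs.length s
      have h4 : (col vs vs.length s : ℝ) < rho vs := by exact_mod_cast this
      linarith
  · rw [step_ret' d vs hd i hi h]
    exact rho_pos vs

theorem eDist_self (p : List ℤ) : eDist p p = 0 := by
  unfold eDist
  have : sqDist p p = 0 := by
    unfold sqDist
    induction p with
    | nil => rfl
    | cons a p ih => simp [ih]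
  rw [this]
  simp

theorem pt_ne (hd : 2 ≤ d) (h1 : ∀ v ∈ vs, v.length = d) (h2 : ∀ v ∈ vs, nsq v ≠ 0) {i j : ℕ}
    (hij : i < j) (hj : j ≤ lastI d vs) : pt d vs i ≠ pt d vs j := by
  intro h
  have h3 : eDist (pt d vs i) (pt d vs j) = 0 := by rw [h, eDist_self]
  rcases le_or_gt j (vs.length + d) with h4 | h4
  · have h5 := chain_le d vs (le_refl i) hij h4
    have h6 := step_pos d vs hd h1 h2 i (by omega)
    unfold stp at h6
    linarith
  · have h5 := far d vs hd (ne_of_lt hij) (by unfold lastI at hj; omega)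
      (by unfold lastI at hj; omega) h4
    have h6 := rho_pos vs
    linarith

theorem pt_inj (hd : 2 ≤ d) (h1 : ∀ v ∈ vs, v.length = d) (h2 : ∀ v ∈ vs, nsq v ≠ 0) :
    Function.Injective fun t : Fin (lastI d vs + 1) => pt d vs t := by
  intro s t hst
  rcases lt_trichotomy s t with h | h | h
  · exact absurd hst (pt_ne d vs hd h1 h2 h (Nat.lt_succ_iff.mp t.2))
  · exact h
  · exact absurd hst.symm (pt_ne d vs hd h1 h2 h (Nat.lt_succ_iff.mp s.2))

theorem w_step (hd : 2 ≤ d) (t : Fin (lastI d vs + 1)) :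
    eDist (pt d vs t) (pt d vs (t + 1 : Fin (lastI d vs + 1))) =
      if t.val < lastI d vs then stp d vs t else (rho vs : ℝ) := by
  split_ifs with h
  · have h1 : t < Fin.last (lastI d vs) := h
    rw [Fin.val_add_one_of_lt h1]
    rfl
  · have h1 : t = Fin.last (lastI d vs) := Fin.ext (by rw [Fin.val_last]; omega)
    rw [h1, Fin.last_add_one]
    exact step_last d vs hd

/-- the length of the polygon -/
theorem tourLen_pts (hd : 2 ≤ d) (h1 : ∀ v ∈ vs, v.length = d) :
    tourLen (pts d vs) = (vs.map fun v => Real.sqrt (nsq v : ℝ)).sum +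
      ((2 * d + 4 : ℕ) : ℝ) * rho vs - (((List.range d).map fun j => col vs vs.length j).sum : ℕ) := by
  rw [pts_eq, tourLen_eq]
  have e1 : ∑ t : Fin (lastI d vs + 1), eDist (pt d vs t) (pt d vs (t + 1 : Fin (lastI d vs + 1))) =
      ∑ i ∈ range (lastI d vs), stp d vs i + rho vs := by
    rw [Fin.sum_univ_castSucc, ← Fin.sum_univ_eq_sum_range]
    congr 1
    · refine sum_congr rfl fun t _ => ?_
      rw [w_step d vs hd, if_pos (by simp)]
      rfl
    · rw [w_step d vs hd, if_neg (by simp)]
  rw [e1]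
  unfold lastI
  rw [sum_range_add, sum_range_add]
  have e2 : ∑ i ∈ range vs.length, stp d vs i = (vs.map fun v => Real.sqrt (nsq v : ℝ)).sum := by
    rw [← Fin.sum_univ_fun_getElem, ← Fin.sum_univ_eq_sum_range]
    exact sum_congr rfl fun i _ => step_vec d vs i.2 (h1 _ (List.getElem_mem i.2))
  have e3 : ∑ i ∈ range d, stp d vs (vs.length + i) =
      (d : ℝ) * rho vs - (((List.range d).map fun j => col vs vs.length j).sum : ℕ) := by
    rw [sum_list_range]
    push_cast
    unfold stp
    rw [sum_congr rfl fun i hi => step_pad d vs (mem_range.mp hi), sum_sub_distrib, sum_const,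
      card_range, nsmul_eq_mul]
  have e4 : ∑ i ∈ range (d + 3), stp d vs (vs.length + d + i) = ((d + 3 : ℕ) : ℝ) * rho vs := by
    rw [sum_congr rfl fun i hi => step_ret' d vs hd (vs.length + d + i) (by
      unfold lastI
      have := mem_range.mp hi
      omega) (by omega), sum_const, card_range, nsmul_eq_mul]
  rw [e2, e3, e4]
  push_cast
  ring

/-- **The polygon is an optimal tour through its vertices.** -/
theorem tourLen_pts_le (hd : 2 ≤ d) (h1 : ∀ v ∈ vs, v.length = d) (h2 : ∀ v ∈ vs, nsq v ≠ 0)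
    (l : List (List ℤ)) (hl : l.Perm (pts d vs)) : tourLen (pts d vs) ≤ tourLen l := by
  rw [pts_eq] at hl ⊢
  obtain ⟨σ, rfl⟩ := exists_perm _ (pt_inj d vs hd h1 h2) l hl
  rw [tourLen_eq, tourLen_eq]
  refine polygon_le (n := lastI d vs) (fun i j => eDist (pt d vs i) (pt d vs j))
    (vs.length + d) (rho vs) (fun _ _ => eDist_nonneg _ _) (fun _ _ => eDist_comm _ _)
    (fun i j t hit htj hj => ?_) (fun i j hij hj => ?_) (fun t => ?_) (fun t ht => ?_) ?_ σ
  · have h3 : t < Fin.last (lastI d vs) := lt_of_lt_of_le htj (Fin.le_last _)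
    have h4 := chain_le d vs (i := i) (j := j) (t := t) hit htj hj
    rw [Fin.val_add_one_of_lt h3]
    exact h4
  · refine far d vs hd (fun h => hij (Fin.ext h)) ?_ ?_ hj
    · have := i.2
      unfold lastI at this
      omega
    · have := j.2
      unfold lastI at this
      omega
  · rw [w_step d vs hd]
    split_ifs with h
    · exact step_le d vs hd h1 t h
    · exact le_rfl
  · rw [w_step d vs hd]
    split_ifs with h
    · exact step_ret' d vs hd t h ht
    · rfl
  · unfold lastI
    omega

/-- **The reduction to the travelling salesman problem.** -/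
theorem geo (hd : 2 ≤ d) (h1 : ∀ v ∈ vs, v.length = d) (h2 : ∀ v ∈ vs, nsq v ≠ 0) (k : ℤ) :
    (pts d vs, bound d vs k) ∈ ETSP d ↔
      (vs.map fun v => Real.sqrt (nsq v : ℝ)).sum ≤ (k : ℝ) := by
  have h3 : ∀ S : ℝ, S + ((2 * d + 4 : ℕ) : ℝ) * rho vs -
      (((List.range d).map fun j => col vs vs.length j).sum : ℕ) ≤ (bound d vs k : ℝ) ↔
      S ≤ (k : ℝ) := by
    intro S
    unfold bound
    rw [Int.cast_sub, Int.cast_add, Int.cast_mul, Int.cast_natCast, Int.cast_natCast,
      Int.cast_natCast]
    constructor <;> intro h <;> linarith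
  constructor
  · rintro ⟨_, _, _, l, hl, hle⟩
    have h4 := (tourLen_pts_le d vs hd h1 h2 l hl).trans hle
    rw [tourLen_pts d vs hd h1] at h4
    exact (h3 _).mp h4
  · intro h
    refine ⟨?_, ?_, ?_, pts d vs, List.Perm.refl _, ?_⟩
    · change pts d vs ≠ []
      rw [pts_eq]
      simp
    · change (pts d vs).Nodup
      rw [pts_eq]
      exact List.nodup_ofFn.mpr (pt_inj d vs hd h1 h2)
    · change ∀ p ∈ pts d vs, p.length = d
      rw [pts_eq]
      intro p hp
      obtain ⟨t, rfl⟩ := (List.mem_ofFn' _ _).mp hp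
      simp [pt]
    · rw [tourLen_pts d vs hd h1]
      exact (h3 _).mpr h

end Pool.Agent.Helper73.ETSP
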