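import Pool.Agent.Helper73.ETSP.Poly
import Pool.Agent.Helper73.ETSP.Tour
import Pool.Agent.Helper73.ETSP.Inst
import Pool.Agent.Helper68.ETSP.Closure

/-!
# Correctness of the reductions and sizes of the certificates
-/

set_option autoImplicit false

namespace Pool.Agent.Helper73.ETSP

open N68a2faeb Pool.Agent.Helper36.PT

section
variable {α : Type} [Enc α]

theorem esz_cons (a : α) (l : List α) : esz (a :: l) = 2 * esz a + 1 + esz l := by
  change (fr (enc a) ++ encL l).length = _
  rw [List.length_append, length_fr]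
  rfl

theorem esz_nil' : esz ([] : List α) = 0 := rfl

theorem esz_perm {l l' : List α} (h : l.Perm l') : esz l = esz l' := by
  induction h with
  | nil => rfl
  | cons a _ ih => rw [esz_cons, esz_cons, ih]
  | swap a b l => rw [esz_cons, esz_cons, esz_cons, esz_cons]; omega
  | trans _ _ h1 h2 => exact h1.trans h2

theorem esz_le_of_forall (l : List α) (B : ℕ) (h : ∀ a ∈ l, esz a ≤ B) :
    esz l ≤ l.length * (2 * B + 1) := by
  induction l with
  | nil => simp [esz_nil']
  | cons a l ih =>
    have h1 := h a List.mem_cons_self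
    have h2 := ih fun b hb => h b (List.mem_cons_of_mem _ hb)
    rw [esz_cons, List.length_cons, Nat.succ_mul]
    linarith

end

theorem sumSq_iff (d a : ℕ) : SumSq d a ↔ ∃ v : List ℕ, v.length = d ∧ nsq v = a := by
  constructor
  · rintro ⟨v, hv⟩
    refine ⟨List.ofFn fun i => (v i).natAbs, by simp, ?_⟩
    unfold nsq
    rw [List.map_ofFn, List.sum_ofFn]
    have h1 : ((∑ i, ((fun x => x ^ 2) ∘ fun i => (v i).natAbs) i : ℕ) : ℤ) = (a : ℤ) := by
      rw [← hv]
      push_cast
      refine Finset.sum_congr rfl fun i _ => ?_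
      simp only [Function.comp]
      push_cast
      exact sq_abs _
    exact_mod_cast h1
  · rintro ⟨v, hv, rfl⟩
    subst hv
    refine ⟨fun i => (v[i.val] : ℤ), ?_⟩
    unfold nsq
    rw [← Fin.sum_univ_fun_getElem]
    push_cast
    rfl

theorem nsq_replicate (d : ℕ) : nsq (List.replicate d 0) = 0 := by
  unfold nsq
  simp

theorem sumSq_zero (d : ℕ) : SumSq d 0 := (sumSq_iff d 0).mpr
  ⟨List.replicate d 0, by simp, nsq_replicate d⟩

theorem sumSq_four {d : ℕ} (hd : 4 ≤ d) (a : ℕ) : SumSq d a := by
  obtain ⟨w, x, y, z, h⟩ := Nat.sum_four_squares a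
  refine (sumSq_iff d a).mpr ⟨w :: x :: y :: z :: List.replicate (d - 4) 0, ?_, ?_⟩
  · simp only [List.length_cons, List.length_replicate]
    omega
  · unfold nsq
    simp only [List.map_cons, List.sum_cons, List.map_replicate, List.sum_replicate]
    rw [← h]
    simp
    ring

theorem SSPd_four {d : ℕ} (hd : 4 ≤ d) : SSPd d = SSP := by
  ext I
  exact ⟨fun h => h.1, fun h => ⟨h, fun a _ => sumSq_four hd a⟩⟩

/-- the list of the nonzero entries -/
noncomputable def nz (A : List BN) : List BN := A.filter (fun n => !(dec (n = BN.mk 0)))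

theorem mem_nz {A : List BN} {a : BN} : a ∈ nz A ↔ a ∈ A ∧ a.val ≠ 0 := by
  unfold nz
  rw [List.mem_filter, Bool.not_eq_true', ← Bool.not_eq_true, dec_eq_true]
  refine and_congr_right fun _ => not_congr ?_
  constructor
  · intro h
    rw [h]
  · intro h
    cases a
    exact congrArg BN.mk h

theorem sum_sqrt_nz (A : List BN) : ((nz A).map fun a => Real.sqrt (a.val : ℝ)).sum =
    (A.map fun a => Real.sqrt (a.val : ℝ)).sum := by
  unfold nz
  induction A with
  | nil => rfl
  | cons a A ih =>
    by_cases h : a = BN.mk 0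
    · subst h
      have h1 : dec (BN.mk 0 = BN.mk 0) = true := (dec_eq_true _).mpr rfl
      rw [List.filter_cons, h1]
      simp [ih]
    · have h1 : dec (a = BN.mk 0) = false := by
        rw [← Bool.not_eq_true, dec_eq_true]
        exact h
      rw [List.filter_cons, h1]
      simp [ih]

/-- certificates of small size -/
theorem exists_cert (d : ℕ) (A : List BN) (h : ∀ a ∈ A, SumSq d a.val) :
    ∃ c : List (List BN), c.map bNsq = nz A ∧ (∀ u ∈ c, u.length = d) ∧
      esz c ≤ (2 * d + 1) * esz A := by
  induction A with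
  | nil => exact ⟨[], rfl, by simp, by simp [esz_nil']⟩
  | cons a A ih =>
    obtain ⟨c, h1, h2, h3⟩ := ih fun b hb => h b (List.mem_cons_of_mem _ hb)
    by_cases ha : a = BN.mk 0
    · subst ha
      refine ⟨c, ?_, h2, ?_⟩
      · rw [h1]
        unfold nz
        rw [List.filter_cons, (dec_eq_true _).mpr rfl]
        rfl
      · rw [esz_cons]
        refine h3.trans (Nat.mul_le_mul_left _ ?_)
        omega
    · obtain ⟨v, hv1, hv2⟩ := (sumSq_iff d _).mp (h a List.mem_cons_self)
      refine ⟨v.map BN.mk :: c, ?_, ?_, ?_⟩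
      · rw [List.map_cons, h1, bNsq_eq]
        have e1 : (v.map BN.mk).map BN.val = v := by
          rw [List.map_map]
          exact List.map_id _
        rw [e1, hv2]
        have h4 : dec (a = BN.mk 0) = false := by
          rw [← Bool.not_eq_true, dec_eq_true]
          exact ha
        unfold nz
        rw [List.filter_cons, h4]
        rfl
      · intro u hu
        rcases List.mem_cons.mp hu with rfl | hu
        · rw [List.length_map, hv1]
        · exact h2 u hu
      · have h5 : esz (v.map BN.mk) ≤ (v.map BN.mk).length * (2 * esz a + 1) := by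
          refine esz_le_of_forall _ _ ?_
          intro b hb
          obtain ⟨x, hx, rfl⟩ := List.mem_map.mp hb
          have h6 : x ≤ a.val := by
            rw [← hv2]
            obtain ⟨i, hi, rfl⟩ := List.mem_iff_getElem.mp hx
            have := getD_le_nsq v i
            rwa [List.getD_eq_getElem _ _ hi] at this
          exact esz_bn_mono h6
        rw [List.length_map, hv1] at h5
        rw [esz_cons, esz_cons, Nat.mul_add]
        have h7 : 2 * esz (v.map BN.mk) + 1 ≤ (2 * d + 1) * (2 * esz a + 1) := by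
          calc 2 * esz (v.map BN.mk) + 1 ≤ 2 * (d * (2 * esz a + 1)) + (2 * esz a + 1) := by omega
            _ = (2 * d + 1) * (2 * esz a + 1) := by ring
        omega

/-! ### the first reduction -/

/-- yes-instances, as elements of the library types -/
def S1 (d : ℕ) : Set (List BN × BZ) := {x | (x.1.map BN.val, x.2.val) ∈ SSPd d}

/-- yes-instances, as elements of the library types -/
def T1 (d : ℕ) : Set (List (List BZ) × BZ) := {x | (x.1.map fun p => p.map BZ.val, x.2.val) ∈ ETSP d}

theorem red1_mem (d : ℕ) (hd : 2 ≤ d) (x : List BN × BZ) (c : List (List BN))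
    (hc : cond1 d (x, c)) : red1 d (x, c) ∈ T1 d ↔
      ((x.1.map BN.val).map fun a : ℕ => Real.sqrt (a : ℝ)).sum ≤ (x.2.val : ℝ) := by
  obtain ⟨_, h2, h3⟩ := hc
  change ((bPts d c).map (fun p => p.map BZ.val), (bBound d c x.2).val) ∈ ETSP d ↔ _
  rw [bPts_eq, bBound_eq, geo d (vals c) hd]
  · have e1 : ((vals c).map fun v => Real.sqrt (nsq v : ℝ)).sum =
        ((x.1.map BN.val).map fun a : ℕ => Real.sqrt (a : ℝ)).sum := by
      have e2 := sum_sqrt_nz x.1
      have e3 : c.map bNsq = nz x.1 := h2
      rw [← e3, List.map_map] at e2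
      have e4 : ((x.1.map BN.val).map fun a : ℕ => Real.sqrt (a : ℝ)).sum =
          (x.1.map fun a => Real.sqrt (a.val : ℝ)).sum := by
        rw [List.map_map]
        rfl
      rw [e4, ← e2]
      unfold vals
      rw [List.map_map]
      refine congrArg List.sum (List.map_congr_left fun v _ => ?_)
      simp only [Function.comp, bNsq_eq]
    rw [e1]
  · intro v hv
    obtain ⟨u, hu, rfl⟩ := List.mem_map.mp hv
    rw [List.length_map]
    exact h3 u hu
  · intro v hv
    obtain ⟨u, hu, rfl⟩ := List.mem_map.mp hv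
    have h4 : bNsq u ∈ nz x.1 := by
      have e3 : c.map bNsq = nz x.1 := h2
      rw [← e3]
      exact List.mem_map_of_mem hu
    rw [bNsq_eq] at h4
    exact (mem_nz.mp h4).2

theorem np_of_tsp (d : ℕ) (hd : 2 ≤ d) (h : langE (T1 d) ∈ NP) : langE (S1 d) ∈ NP := by
  have := arith
  refine np_closure (S1 d) (T1 d) (red1 d) (cond1 d) (polyTime_red1 d) (polyTime_cond1 d)
    (2 * d + 2) ?_ ?_ h
  · rintro x ⟨⟨hx1, hx2⟩, hx3⟩
    obtain ⟨c, h1, h2, h3⟩ := exists_cert d x.1 fun a ha => hx3 _ (List.mem_map_of_mem ha)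
    have hne : x.1 ≠ [] := by
      intro h4
      apply hx1
      change x.1.map BN.val = []
      rw [h4]
      rfl
    have hc : cond1 d (x, c) := ⟨hne, h1, h2⟩
    refine ⟨c, ?_, hc, (red1_mem d hd x c hc).mpr hx2⟩
    have h4 : esz x.1 ≤ esz x := by
      have e : esz x = 2 * esz x.1 + 1 + esz x.2 := esz_pair x.1 x.2
      omega
    calc esz c ≤ (2 * d + 1) * esz x.1 := h3
      _ ≤ (esz x + 2) ^ (2 * d + 1) * (esz x + 2) := by
          refine Nat.mul_le_mul ?_ (by omega)
          calc 2 * d + 1 ≤ 2 ^ (2 * d + 1) := Nat.lt_two_pow_self.le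
            _ ≤ (esz x + 2) ^ (2 * d + 1) := Nat.pow_le_pow_left (by omega) _
      _ = (esz x + 2) ^ (2 * d + 2) := (pow_succ _ _).symm
  · intro x c hc hT
    have h1 := (red1_mem d hd x c hc).mp hT
    obtain ⟨h2, h3, h4⟩ := hc
    refine ⟨⟨?_, h1⟩, ?_⟩
    · change x.1.map BN.val ≠ []
      intro h5
      exact h2 (List.map_eq_nil_iff.mp h5)
    · intro a ha
      obtain ⟨b, hb, rfl⟩ := List.mem_map.mp ha
      by_cases h5 : b.val = 0
      · rw [h5]
        exact sumSq_zero d
      · have h6 : b ∈ nz x.1 := mem_nz.mpr ⟨hb, h5⟩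
        have e3 : c.map bNsq = nz x.1 := h3
        rw [← e3] at h6
        obtain ⟨u, hu, rfl⟩ := List.mem_map.mp h6
        refine (sumSq_iff d _).mpr ⟨u.map BN.val, ?_, ?_⟩
        · rw [List.length_map]
          exact h4 u hu
        · rw [bNsq_eq]

/-! ### the second reduction -/

theorem rotate_one {A : Type} (l : List A) : l.rotate 1 = l.tail ++ l.take 1 := by
  cases l with
  | nil => rfl
  | cons a l => simp

theorem noRep_iff (l : List (List BZ)) : NoRep l ↔ l.Nodup := by
  unfold NoRep
  rw [List.nodup_iff_getElem?_ne_getElem?]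
  constructor
  · intro h i j hij hj
    exact (h j hj i hij).symm
  · intro h i hi j hj
    exact (h j i hj hi).symm

theorem sumSq_sqDist (d : ℕ) (p q : List ℤ) (hp : p.length = d) (hq : q.length = d) :
    SumSq d (sqDist p q) := by
  refine (sumSq_iff d _).mpr ⟨List.zipWith (fun x y => (x - y).natAbs) p q, by simp [hp, hq], ?_⟩
  unfold nsq sqDist
  rw [List.map_zipWith]

theorem red2_fst (l : List (List BZ)) (L : List (List BZ) × BZ) :
    (red2 (L, l)).1.map BN.val = List.zipWith sqDist (l.map fun p => p.map BZ.val)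
      ((l.map fun p => p.map BZ.val).rotate 1) := by
  change (List.zipWith bDist l (l.tail ++ l.take 1)).map BN.val = _
  rw [← rotate_one, ← List.map_rotate, List.map_zipWith, List.zipWith_map]
  congr 1
  funext p q
  rw [bDist_eq]

theorem sum_sqrt_red2 (l : List (List ℤ)) :
    ((List.zipWith sqDist l (l.rotate 1)).map fun a : ℕ => Real.sqrt (a : ℝ)).sum = tourLen l := by
  unfold tourLen
  rw [List.map_zipWith]
  rfl

theorem np_of_ssp (d : ℕ) (h : langE (S1 d) ∈ NP) : langE (T1 d) ∈ NP := by
  have := arith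
  have hinj : Function.Injective fun p : List BZ => p.map BZ.val :=
    List.map_injective_iff.mpr fun a b hab => by
      cases a
      cases b
      exact congrArg BZ.mk hab
  refine np_closure (T1 d) (S1 d) red2 (cond2 d) polyTime_red2 (polyTime_cond2 d) 1 ?_ ?_ h
  · rintro x ⟨hx1, hx2, hx3, l, hl, hle⟩
    obtain ⟨c, rfl⟩ : ∃ c : List (List BZ), c.map (fun p => p.map BZ.val) = l := by
      refine ⟨l.map fun p => p.map BZ.mk, ?_⟩
      rw [List.map_map]
      refine (List.map_congr_left fun p _ => ?_).trans (List.map_id _)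
      simp only [Function.comp, List.map_map]
      exact List.map_id _
    have hperm : c.Perm x.1 := (List.map_perm_map_iff hinj).mp hl
    have hnd : x.1.Nodup := hx2.of_map _
    have hne : x.1 ≠ [] := by
      intro h4
      apply hx1
      change x.1.map (fun p => p.map BZ.val) = []
      rw [h4]
      rfl
    have hlen : ∀ p ∈ x.1, p.length = d := by
      intro p hp
      have := hx3 _ (List.mem_map_of_mem hp)
      rwa [List.length_map] at this
    refine ⟨c, ?_, ⟨hne, (noRep_iff _).mpr hnd, hlen,
      (noRep_iff _).mpr (hperm.nodup_iff.mpr hnd), hperm.length_eq, fun p hp => hperm.mem_iff.mp hp⟩,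
      ?_⟩
    · have e : esz x = 2 * esz x.1 + 1 + esz x.2 := esz_pair x.1 x.2
      have e2 := esz_perm hperm
      rw [pow_one]
      omega
    · refine ⟨⟨?_, ?_⟩, ?_⟩
      · change (red2 (x, c)).1.map BN.val ≠ []
        rw [red2_fst]
        intro h5
        have h6 := congrArg List.length h5
        have h7 : 0 < c.length := by
          rw [hperm.length_eq]
          exact List.length_pos_of_ne_nil hne
        rw [List.length_zipWith, List.length_rotate, List.length_map, Nat.min_self] at h6
        exact absurd h6 h7.ne'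
      · change (((red2 (x, c)).1.map BN.val).map fun a : ℕ => Real.sqrt (a : ℝ)).sum ≤ _
        rw [red2_fst, sum_sqrt_red2]
        exact hle
      · change ∀ a ∈ (red2 (x, c)).1.map BN.val, SumSq d a
        rw [red2_fst]
        intro a ha
        obtain ⟨i, hi, rfl⟩ := List.mem_iff_getElem.mp ha
        rw [List.getElem_zipWith]
        have hc : ∀ p ∈ c.map (fun p => p.map BZ.val), p.length = d := by
          intro p hp
          obtain ⟨q, hq, rfl⟩ := List.mem_map.mp hp
          rw [List.length_map]
          exact hlen q (hperm.mem_iff.mp hq)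
        exact sumSq_sqDist d _ _ (hc _ (List.getElem_mem _))
          (hc _ (List.mem_rotate.mp (List.getElem_mem _)))
  · rintro x c ⟨h1, h2, h3, h4, h5, h6⟩ ⟨⟨h7, h8⟩, h9⟩
    have hperm : c.Perm x.1 := by
      have hsub : c ⊆ x.1 := h6
      exact (List.subperm_of_subset ((noRep_iff _).mp h4) hsub).perm_of_length_le h5.ge
    refine ⟨?_, ?_, ?_, c.map (fun p => p.map BZ.val), hperm.map _, ?_⟩
    · change x.1.map (fun p => p.map BZ.val) ≠ []
      intro h10
      exact h1 (List.map_eq_nil_iff.mp h10)
    · exact ((noRep_iff _).mp h2).map hinj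
    · intro p hp
      obtain ⟨q, hq, rfl⟩ := List.mem_map.mp hp
      rw [List.length_map]
      exact h3 q hq
    · have h10 : (((red2 (x, c)).1.map BN.val).map fun a : ℕ => Real.sqrt (a : ℝ)).sum ≤ _ := h8
      rw [red2_fst, sum_sqrt_red2] at h10
      exact h10

/-- **Euclidean tours and sums of square roots.** -/
theorem main (d : ℕ) (hd : 2 ≤ d) : lang (ETSP d) ∈ NP ↔ lang (SSPd d) ∈ NP := by
  rw [lang_ssp, lang_tsp]
  exact ⟨np_of_tsp d hd, np_of_ssp d⟩

theorem SSPr_eq (d : ℕ) : SSPr d = SSPd d := by
  rcases lt_or_ge d 4 with h | h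
  · ext I
    exact ⟨fun h1 => ⟨h1.1, h1.2 h⟩, fun h1 => ⟨h1.1, fun _ => h1.2⟩⟩
  · rw [SSPd_four h]
    ext I
    exact ⟨fun h1 => h1.1, fun h1 => ⟨h1, fun h2 => absurd h (not_le.mpr h2)⟩⟩

end Pool.Agent.Helper73.ETSP
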