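import Pool.Prelude.Def_H_3587d628
import Pool.Agent.Helper68.PT.Ext2

/-!
# Euclidean tours and sums of square roots: definitions

Part 1: the languages. Part 2: binary numbers as encoded types (library of polynomial time
functions `Pool.Agent.Helper36.PT`). Part 3: the polygon.
-/

set_option autoImplicit false

namespace Pool.Agent.Helper73.ETSP

open N68a2faeb Pool.Agent.Helper36.PT

/-! ### Part 1: languages -/

/-- The language (set of words) of the encodings of the elements of `S`. -/
noncomputable def lang {α : Type} [N487b59b3 α] (S : Set α) : DecisionProblem := by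
  classical exact fun x => decide (∃ a ∈ S, N487b59b3.bitEncode a = x)

/-- Yes-instances `(a, k)` of the sum of square roots problem: `a` is a nonempty list of natural
numbers, `k` an integer and the sum of the square roots of the entries of `a` is at most `k`. -/
def SSP : Set (List ℕ × ℤ) :=
  {I | I.1 ≠ [] ∧ (I.1.map fun a : ℕ => Real.sqrt (a : ℝ)).sum ≤ (I.2 : ℝ)}

/-- `a` is a sum of `d` squares. -/
def SumSq (d a : ℕ) : Prop := ∃ v : Fin d → ℤ, ∑ i, v i ^ 2 = (a : ℤ)

/-- Yes-instances of the sum of square roots problem all of whose entries are sums of `d`
squares. -/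
def SSPd (d : ℕ) : Set (List ℕ × ℤ) := {I | I ∈ SSP ∧ ∀ a ∈ I.1, SumSq d a}

/-- The restriction of the sum of square roots problem that belongs to dimension `d`: for `d < 4`
only instances all of whose entries are sums of `d` squares are admitted, for `d ≥ 4` there is no
restriction. -/
def SSPr (d : ℕ) : Set (List ℕ × ℤ) := {I | I ∈ SSP ∧ (d < 4 → ∀ a ∈ I.1, SumSq d a)}

/-- The square of the Euclidean distance of two points given by their lists of coordinates. -/
def sqDist (p q : List ℤ) : ℕ := (List.zipWith (fun x y => (x - y).natAbs ^ 2) p q).sum

/-- The Euclidean distance. -/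
noncomputable def eDist (p q : List ℤ) : ℝ := Real.sqrt (sqDist p q : ℝ)

/-- The length of the closed tour which visits the points of the list in the given order and
returns to the first point. -/
noncomputable def tourLen (l : List (List ℤ)) : ℝ := (List.zipWith eDist l (l.rotate 1)).sum

/-- Yes-instances `(P, L)` of the Euclidean travelling salesman problem in dimension `d`: `P` is
the list of the points (nonempty, without repetition, with integer coordinates), `L` an integer,
and some closed tour through all the points, each visited once, has length at most `L`. -/
def ETSP (d : ℕ) : Set (List (List ℤ) × ℤ) :=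
  {I | I.1 ≠ [] ∧ I.1.Nodup ∧ (∀ p ∈ I.1, p.length = d) ∧
    ∃ l : List (List ℤ), l.Perm I.1 ∧ tourLen l ≤ (I.2 : ℝ)}

/-! ### Part 2: binary numbers -/

/-- Natural numbers in binary. -/
structure BN where
  /-- the value -/
  val : ℕ

/-- Integers in binary. -/
structure BZ where
  /-- the value -/
  val : ℤ

instance : Enc BN := ⟨fun n => Computability.encodeNat n.val⟩

instance : Enc BZ := ⟨fun z => fr (Computability.encodeNat z.val.toNat) ++
  Computability.encodeNat (-z.val).toNat⟩

/-- Types whose elements can be recovered from their encodings in polynomial time. -/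
class Dec (α : Type) [Enc α] : Prop where
  /-- the decoding function -/
  out : ∃ dec : Word → α, PolyTime dec ∧ ∀ a, dec ⟨enc a⟩ = a

/-- The language of the encodings of the elements of `S` (types of the library). -/
noncomputable def langE {α : Type} [Enc α] (S : Set α) : DecisionProblem := by
  classical exact fun x => decide (∃ a ∈ S, enc a = x)

/-! ### Part 3: the polygon -/

/-- the square of the length of a vector -/
def nsq (v : List ℕ) : ℕ := (v.map (fun x => x ^ 2)).sum

/-- the side of the box -/
def rho (vs : List (List ℕ)) : ℕ := 1 + (vs.map nsq).sum

/-- coordinate `j` of the sum of the first `i` vectors -/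
def col (vs : List (List ℕ)) (i j : ℕ) : ℕ := ((vs.take i).map fun v => v.getD j 0).sum

/-- Coordinate `j` of the point `i` of the polygon: the points `0, ..., n` are the partial sums of
the vectors, the next `d` points lead in the directions of the axes to `(ρ, ..., ρ)`, and the last
`d + 3` points lead outside of the box `[0, ρ] ^ d` back to the origin, in steps of length `ρ`. -/
def coord (d : ℕ) (vs : List (List ℕ)) (i j : ℕ) : ℤ :=
  if i ≤ vs.length then (col vs i j : ℤ)
  else if i ≤ vs.length + d then
    (if j < i - vs.length then (rho vs : ℤ) else (col vs vs.length j : ℤ))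
  else if j = 0 then
    (if i ≤ vs.length + d + 3 then 2 * (rho vs : ℤ) else
      if i = vs.length + d + 4 then (rho vs : ℤ) else 0)
  else if j = 1 then
    (if i = vs.length + d + 1 then (rho vs : ℤ) else if i = vs.length + d + 2 then 0 else
      - (rho vs : ℤ))
  else (if j + 3 < i - (vs.length + d) then 0 else (rho vs : ℤ))

/-- the points of the polygon -/
def pts (d : ℕ) (vs : List (List ℕ)) : List (List ℤ) :=
  (List.range (vs.length + 2 * d + 4)).map fun i => (List.range d).map fun j => coord d vs i j

/-- the bound for the length of the tour -/
def bound (d : ℕ) (vs : List (List ℕ)) (k : ℤ) : ℤ :=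
  k + ((2 * d + 4 : ℕ) : ℤ) * (rho vs : ℤ) - (((List.range d).map fun j => col vs vs.length j).sum : ℕ)

end Pool.Agent.Helper73.ETSP
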