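import Pool.Agent.Helper73.ETSP.Defs
import Pool.Agent.Helper73.ETSP.Core

/-!
# The polygon: coordinates and distances
-/

set_option autoImplicit false

namespace Pool.Agent.Helper73.ETSP

open Finset

/-- the point `i` of the polygon -/
def pt (d : ℕ) (vs : List (List ℕ)) (i : ℕ) : List ℤ := (List.range d).map fun j => coord d vs i j

theorem sum_list_range {M : Type} [AddCommMonoid M] (d : ℕ) (f : ℕ → M) :
    ((List.range d).map f).sum = ∑ j ∈ range d, f j := rfl

theorem zipWith_map_map {A B C D : Type} (F : B → C → D) (l : List A) (f : A → B) (g : A → C) :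
    List.zipWith F (l.map f) (l.map g) = l.map fun a => F (f a) (g a) := by
  induction l with
  | nil => rfl
  | cons a l ih => simp only [List.map_cons, List.zipWith_cons_cons, ih]

theorem eDist_map (d : ℕ) (f g : ℕ → ℤ) :
    eDist ((List.range d).map f) ((List.range d).map g) =
      Real.sqrt (∑ j ∈ range d, ((f j : ℝ) - (g j : ℝ)) ^ 2) := by
  unfold eDist sqDist
  rw [zipWith_map_map, sum_list_range]
  congr 1
  push_cast
  refine sum_congr rfl fun j _ => ?_
  rw [Nat.cast_natAbs]
  push_cast
  exact sq_abs _

theorem eDist_comm (p q : List ℤ) : eDist p q = eDist q p := by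
  unfold eDist sqDist
  rw [List.zipWith_comm]
  congr 4
  funext x y
  rw [← Int.natAbs_neg, neg_sub]

theorem eDist_nonneg (p q : List ℤ) : 0 ≤ eDist p q := Real.sqrt_nonneg _

theorem eDist_le_of (d : ℕ) (f g f' g' : ℕ → ℤ)
    (h : ∀ j < d, |f j - g j| ≤ |f' j - g' j|) :
    eDist ((List.range d).map f) ((List.range d).map g) ≤
      eDist ((List.range d).map f') ((List.range d).map g') := by
  rw [eDist_map, eDist_map]
  refine Real.sqrt_le_sqrt (sum_le_sum fun j hj => ?_)
  have h1 := h j (mem_range.mp hj)
  have h2 : |((f j : ℝ) - g j)| ≤ |((f' j : ℝ) - g' j)| := by exact_mod_cast h1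
  exact sq_le_sq.mpr h2

theorem le_eDist_of (d : ℕ) (f g : ℕ → ℤ) (c : ℝ) (j : ℕ) (hj : j < d)
    (h : c ≤ |(f j : ℝ) - g j|) :
    c ≤ eDist ((List.range d).map f) ((List.range d).map g) := by
  rw [eDist_map]
  refine h.trans ?_
  rw [← Real.sqrt_sq_eq_abs]
  refine Real.sqrt_le_sqrt ?_
  exact single_le_sum (f := fun j => ((f j : ℝ) - (g j : ℝ)) ^ 2) (fun j _ => sq_nonneg _)
    (mem_range.mpr hj)

/-- only one coordinate changes -/
theorem eDist_eq_of (d : ℕ) (f g : ℕ → ℤ) (j : ℕ) (hj : j < d)
    (h : ∀ i < d, i ≠ j → f i = g i) :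
    eDist ((List.range d).map f) ((List.range d).map g) = |(f j : ℝ) - g j| := by
  rw [eDist_map, ← Real.sqrt_sq_eq_abs]
  congr 1
  refine sum_eq_single j (fun i hi hij => ?_) (fun h1 => absurd (mem_range.mpr hj) h1)
  rw [h i (mem_range.mp hi) hij, sub_self]
  norm_num

/-! ### coordinates -/

variable (d : ℕ) (vs : List (List ℕ))

theorem col_mono {i i' : ℕ} (h : i ≤ i') (j : ℕ) : col vs i j ≤ col vs i' j := by
  unfold col
  rw [← Nat.add_sub_cancel' h, List.take_add, List.map_append, List.sum_append]
  exact Nat.le_add_right _ _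

theorem getD_le_nsq (v : List ℕ) (j : ℕ) : v.getD j 0 ≤ nsq v := by
  unfold nsq
  rcases lt_or_ge j v.length with h | h
  · rw [List.getD_eq_getElem _ _ h]
    have h1 : v[j] ^ 2 ∈ v.map (fun x => x ^ 2) := List.mem_map.mpr ⟨v[j], List.getElem_mem h, rfl⟩
    exact (Nat.le_self_pow two_ne_zero _).trans (List.single_le_sum (fun _ _ => Nat.zero_le _) _ h1)
  · rw [List.getD_eq_default _ _ h]
    exact Nat.zero_le _

theorem col_lt (i j : ℕ) : col vs i j < rho vs := by
  have h1 : col vs i j ≤ col vs (max i vs.length) j := col_mono vs (le_max_left _ _) j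
  have h2 : col vs (max i vs.length) j ≤ (vs.map nsq).sum := by
    unfold col
    rw [List.take_of_length_le (le_max_right _ _)]
    exact List.sum_le_sum fun v _ => getD_le_nsq v j
  unfold rho
  omega

theorem coord_chain {i j : ℕ} (hi : i ≤ vs.length + d) :
    coord d vs i j = if i ≤ vs.length then (col vs i j : ℤ) else
      (if j < i - vs.length then (rho vs : ℤ) else (col vs vs.length j : ℤ)) := by
  unfold coord
  rw [if_pos hi]

theorem coord_nonneg {i j : ℕ} (hi : i ≤ vs.length + d) : 0 ≤ coord d vs i j := by
  rw [coord_chain d vs hi]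
  split_ifs <;> positivity

theorem coord_le {i j : ℕ} (hi : i ≤ vs.length + d) : coord d vs i j ≤ rho vs := by
  have h1 := col_lt vs i j
  have h2 := col_lt vs vs.length j
  rw [coord_chain d vs hi]
  split_ifs <;> omega

theorem coord_mono {i i' j : ℕ} (h : i ≤ i') (hi : i' ≤ vs.length + d) :
    coord d vs i j ≤ coord d vs i' j := by
  rw [coord_chain d vs hi, coord_chain d vs (h.trans hi)]
  have h1 := col_lt vs i j
  have h2 := col_lt vs vs.length j
  have h3 := col_mono vs h j
  have h4 := fun h' : i ≤ vs.length => col_mono vs h' j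
  split_ifs <;> omega

theorem coord_zero {r : ℕ} (hr : 1 ≤ r) : coord d vs (vs.length + d + r) 0 =
    if r ≤ 3 then 2 * (rho vs : ℤ) else if r = 4 then (rho vs : ℤ) else 0 := by
  unfold coord
  rw [if_neg (by omega), if_neg (by omega), if_pos rfl]
  have e1 : (vs.length + d + r ≤ vs.length + d + 3) ↔ r ≤ 3 := by omega
  have e2 : (vs.length + d + r = vs.length + d + 4) ↔ r = 4 := by omega
  simp only [e1, e2]

theorem coord_one {r : ℕ} (hr : 1 ≤ r) : coord d vs (vs.length + d + r) 1 =
    if r = 1 then (rho vs : ℤ) else if r = 2 then 0 else - (rho vs : ℤ) := by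
  unfold coord
  rw [if_neg (by omega), if_neg (by omega), if_neg one_ne_zero, if_pos rfl]
  have e1 : (vs.length + d + r = vs.length + d + 1) ↔ r = 1 := by omega
  have e2 : (vs.length + d + r = vs.length + d + 2) ↔ r = 2 := by omega
  simp only [e1, e2]

theorem coord_two {r j : ℕ} (hr : 1 ≤ r) (hj : 2 ≤ j) : coord d vs (vs.length + d + r) j =
    if j + 3 < r then 0 else (rho vs : ℤ) := by
  unfold coord
  rw [if_neg (by omega), if_neg (by omega), if_neg (by omega), if_neg (by omega)]
  have e1 : (j + 3 < vs.length + d + r - (vs.length + d)) ↔ j + 3 < r := by omega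
  simp only [e1]

/-- two return points -/
theorem far_ret (hd : 2 ≤ d) {r r' : ℕ} (hr : 1 ≤ r) (hrr : r < r') (hr' : r' ≤ d + 3) :
    ∃ s < d, (rho vs : ℤ) ≤ |coord d vs (vs.length + d + r) s -
      coord d vs (vs.length + d + r') s| := by
  have hρ : (0 : ℤ) ≤ rho vs := Int.natCast_nonneg _
  have hr1 : 1 ≤ r' := by omega
  rcases le_or_gt 6 r' with h6 | h6
  · refine ⟨r' - 4, by omega, ?_⟩
    rw [coord_two d vs hr (by omega), coord_two d vs hr1 (by omega), if_neg (by omega),
      if_pos (by omega), sub_zero]
    exact le_abs_self _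
  · rcases le_or_gt r 2 with h2 | h2
    · refine ⟨1, by omega, ?_⟩
      rw [coord_one d vs hr, coord_one d vs hr1]
      refine le_trans ?_ (le_abs_self _)
      split_ifs <;> omega
    · refine ⟨0, by omega, ?_⟩
      rw [coord_zero d vs hr, coord_zero d vs hr1]
      refine le_trans ?_ (le_abs_self _)
      split_ifs <;> omega

/-- a point of the box and a return point -/
theorem far_box (hd : 2 ≤ d) {i r : ℕ} (hi : i ≤ vs.length + d) (hr : 1 ≤ r) :
    ∃ s < d, (rho vs : ℤ) ≤ |coord d vs i s - coord d vs (vs.length + d + r) s| := by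
  have hρ : (0 : ℤ) ≤ rho vs := Int.natCast_nonneg _
  rcases le_or_gt r 3 with h3 | h3
  · refine ⟨0, by omega, ?_⟩
    have h1 := coord_le d vs (i := i) (j := 0) hi
    rw [coord_zero d vs hr, if_pos h3, abs_sub_comm]
    refine le_trans ?_ (le_abs_self _)
    omega
  · refine ⟨1, by omega, ?_⟩
    have h1 := coord_nonneg d vs (i := i) (j := 1) hi
    rw [coord_one d vs hr, if_neg (by omega), if_neg (by omega)]
    refine le_trans ?_ (le_abs_self _)
    omega

/-- every point is far from the return points -/
theorem far (hd : 2 ≤ d) {i j : ℕ} (hij : i ≠ j) (hi : i ≤ vs.length + 2 * d + 3)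
    (hj : j ≤ vs.length + 2 * d + 3) (hm : vs.length + d < j) :
    (rho vs : ℝ) ≤ eDist (pt d vs i) (pt d vs j) := by
  have key : ∃ s < d, (rho vs : ℤ) ≤ |coord d vs i s - coord d vs j s| := by
    obtain ⟨r', rfl⟩ : ∃ r', j = vs.length + d + r' := ⟨j - (vs.length + d), by omega⟩
    rcases le_or_gt i (vs.length + d) with h | h
    · exact far_box d vs hd h (by omega)
    · obtain ⟨r, rfl⟩ : ∃ r, i = vs.length + d + r := ⟨i - (vs.length + d), by omega⟩
      rcases lt_or_gt_of_ne hij with h1 | h1
      · exact far_ret d vs hd (by omega) (by omega) (by omega)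
      · obtain ⟨s, hs, h2⟩ := far_ret d vs hd (r := r') (r' := r) (by omega) (by omega)
          (by omega)
        refine ⟨s, hs, ?_⟩
        rw [abs_sub_comm]
        exact h2
  obtain ⟨s, hs, h⟩ := key
  refine le_eDist_of d _ _ _ s hs ?_
  exact_mod_cast h

/-- the distances in the chain dominate the steps in between -/
theorem chain_le {i j t : ℕ} (hit : i ≤ t) (htj : t < j) (hj : j ≤ vs.length + d) :
    eDist (pt d vs t) (pt d vs (t + 1)) ≤ eDist (pt d vs i) (pt d vs j) := by
  refine eDist_le_of d _ _ _ _ fun s _ => ?_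
  have h1 := coord_mono d vs (i := i) (i' := t) (j := s) hit (by omega)
  have h2 := coord_mono d vs (i := t) (i' := t + 1) (j := s) (by omega) (by omega)
  have h3 := coord_mono d vs (i := t + 1) (i' := j) (j := s) (by omega) (by omega)
  rw [abs_sub_comm, abs_of_nonneg (by omega), abs_sub_comm, abs_of_nonneg (by omega)]
  omega

/-! ### the steps -/

theorem col_succ {t : ℕ} (ht : t < vs.length) (j : ℕ) :
    col vs (t + 1) j = col vs t j + (vs[t]).getD j 0 := by
  unfold col
  rw [List.take_add_one, List.map_append, List.sum_append, List.getElem?_eq_getElem ht]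
  simp

theorem sum_range_getD {M : Type} [AddCommMonoid M] (v : List ℕ) (f : ℕ → M) (d : ℕ)
    (hv : v.length = d) : ∑ j ∈ range d, f (v.getD j 0) = (v.map f).sum := by
  subst hv
  induction v with
  | nil => rfl
  | cons a v ih =>
    rw [List.length_cons, sum_range_succ', List.map_cons, List.sum_cons, ← ih, add_comm]
    rfl

theorem step_vec {t : ℕ} (ht : t < vs.length) (hv : (vs[t]).length = d) :
    eDist (pt d vs t) (pt d vs (t + 1)) = Real.sqrt (nsq vs[t]) := by
  unfold pt
  rw [eDist_map]
  congr 1
  unfold nsq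
  rw [← sum_range_getD vs[t] (fun x => x ^ 2) d hv]
  push_cast
  refine sum_congr rfl fun j _ => ?_
  rw [coord_chain d vs (by omega), coord_chain d vs (by omega), if_pos (by omega),
    if_pos (by omega), col_succ vs ht]
  push_cast
  ring

theorem coord_pad {s : ℕ} (hs : s ≤ d) (j : ℕ) : coord d vs (vs.length + s) j =
    if j < s then (rho vs : ℤ) else (col vs vs.length j : ℤ) := by
  rw [coord_chain d vs (by omega)]
  rcases Nat.eq_zero_or_pos s with h0 | h0
  · subst h0
    rw [if_pos (by omega), if_neg (by omega)]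
    rfl
  · rw [if_neg (by omega), Nat.add_sub_cancel_left]

theorem step_pad {s : ℕ} (hs : s < d) :
    eDist (pt d vs (vs.length + s)) (pt d vs (vs.length + s + 1)) =
      (rho vs : ℝ) - col vs vs.length s := by
  have hlt : (col vs vs.length s : ℝ) < rho vs := by exact_mod_cast col_lt vs vs.length s
  unfold pt
  rw [eDist_eq_of d _ _ s hs]
  · rw [add_assoc, coord_pad d vs hs.le, coord_pad d vs (s := s + 1) (by omega),
      if_neg (lt_irrefl s), if_pos (Nat.lt_succ_self s), abs_sub_comm, abs_of_nonneg]
    · push_cast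
      rfl
    · push_cast
      linarith
  · intro i _ his
    rw [add_assoc, coord_pad d vs hs.le, coord_pad d vs (s := s + 1) (by omega)]
    have e1 : (i < s) ↔ (i < s + 1) := by omega
    simp only [e1]

theorem coord_top {j : ℕ} (hj : j < d) : coord d vs (vs.length + d + 0) j = rho vs := by
  rw [add_zero, coord_pad d vs le_rfl, if_pos hj]

theorem coord_start (j : ℕ) : coord d vs 0 j = 0 := by
  rw [coord_chain d vs (Nat.zero_le _), if_pos (Nat.zero_le _)]
  rfl

/-- the return steps -/
theorem step_ret (hd : 2 ≤ d) {r : ℕ} (hr : r ≤ d + 2) :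
    eDist (pt d vs (vs.length + d + r)) (pt d vs (vs.length + d + (r + 1))) = rho vs := by
  have hρ : (0 : ℝ) ≤ rho vs := Nat.cast_nonneg _
  have key : ∃ s < d, (∀ i < d, i ≠ s → coord d vs (vs.length + d + r) i =
      coord d vs (vs.length + d + (r + 1)) i) ∧
      |(coord d vs (vs.length + d + r) s : ℝ) - coord d vs (vs.length + d + (r + 1)) s| =
        rho vs := by
    rcases Nat.eq_zero_or_pos r with h0 | h0
    · subst h0
      refine ⟨0, by omega, fun i hi hi0 => ?_, ?_⟩
      · rw [coord_top d vs hi]
        rcases Nat.lt_or_ge i 2 with h2 | h2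
        · obtain rfl : i = 1 := by omega
          rw [coord_one d vs (by omega), if_pos rfl]
        · rw [coord_two d vs (by omega) h2, if_neg (by omega)]
      · rw [coord_top d vs (by omega), coord_zero d vs (by omega), if_pos (by omega)]
        push_cast
        rw [show (rho vs : ℝ) - 2 * rho vs = - rho vs by ring, abs_neg, abs_of_nonneg hρ]
    rcases Nat.lt_or_ge r 3 with h3 | h3
    · refine ⟨1, by omega, fun i hi hi0 => ?_, ?_⟩
      · rcases Nat.lt_or_ge i 2 with h2 | h2
        · obtain rfl : i = 0 := by omega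
          rw [coord_zero d vs h0, coord_zero d vs (by omega), if_pos (by omega), if_pos (by omega)]
        · rw [coord_two d vs h0 h2, coord_two d vs (by omega) h2, if_neg (by omega),
            if_neg (by omega)]
      · rw [coord_one d vs h0, coord_one d vs (by omega)]
        obtain rfl | rfl : r = 1 ∨ r = 2 := by omega
        · simp
        · simp
    rcases Nat.lt_or_ge r 5 with h5 | h5
    · refine ⟨0, by omega, fun i hi hi0 => ?_, ?_⟩
      · rcases Nat.lt_or_ge i 2 with h2 | h2
        · obtain rfl : i = 1 := by omega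
          rw [coord_one d vs h0, coord_one d vs (by omega), if_neg (by omega), if_neg (by omega),
            if_neg (by omega), if_neg (by omega)]
        · rw [coord_two d vs h0 h2, coord_two d vs (by omega) h2, if_neg (by omega),
            if_neg (by omega)]
      · rw [coord_zero d vs h0, coord_zero d vs (by omega)]
        obtain rfl | rfl : r = 3 ∨ r = 4 := by omega
        · simp
          rw [show 2 * (rho vs : ℝ) - rho vs = rho vs by ring, abs_of_nonneg hρ]
        · simp
    · refine ⟨r - 3, by omega, fun i hi hi0 => ?_, ?_⟩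
      · rcases Nat.lt_or_ge i 2 with h2 | h2
        · obtain rfl | rfl : i = 0 ∨ i = 1 := by omega
          · rw [coord_zero d vs h0, coord_zero d vs (by omega), if_neg (by omega),
              if_neg (by omega), if_neg (by omega), if_neg (by omega)]
          · rw [coord_one d vs h0, coord_one d vs (by omega), if_neg (by omega),
              if_neg (by omega), if_neg (by omega), if_neg (by omega)]
        · rw [coord_two d vs h0 h2, coord_two d vs (by omega) h2]
          have e1 : (i + 3 < r) ↔ (i + 3 < r + 1) := by omega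
          simp only [e1]
      · rw [coord_two d vs h0 (by omega), coord_two d vs (by omega) (by omega),
          if_neg (by omega), if_pos (by omega)]
        push_cast
        rw [sub_zero, abs_of_nonneg hρ]
  obtain ⟨s, hs, h1, h2⟩ := key
  unfold pt
  rw [eDist_eq_of d _ _ s hs h1, h2]

/-- the last step -/
theorem step_last (hd : 2 ≤ d) :
    eDist (pt d vs (vs.length + d + (d + 3))) (pt d vs 0) = rho vs := by
  have hρ : (0 : ℝ) ≤ rho vs := Nat.cast_nonneg _
  unfold pt
  rw [eDist_eq_of d _ _ 1 (by omega)]
  · rw [coord_one d vs (by omega), coord_start, if_neg (by omega), if_neg (by omega)]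
    push_cast
    rw [sub_zero, abs_neg, abs_of_nonneg hρ]
  · intro i hi hi1
    rw [coord_start]
    rcases Nat.eq_zero_or_pos i with h0 | h0
    · subst h0
      rw [coord_zero d vs (by omega), if_neg (by omega), if_neg (by omega)]
    · rw [coord_two d vs (by omega) (by omega), if_pos (by omega)]

/-! ### lists and cyclic orders -/

theorem tourLen_eq {N : ℕ} (p : Fin (N + 1) → List ℤ) :
    tourLen (List.ofFn p) = ∑ t : Fin (N + 1), eDist (p t) (p (t + 1)) := by
  unfold tourLen
  have h : List.zipWith eDist (List.ofFn p) ((List.ofFn p).rotate 1) =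
      List.ofFn fun t => eDist (p t) (p (t + 1)) := by
    apply List.ext_getElem
    · simp
    · intro i h1 h2
      rw [List.getElem_zipWith, List.getElem_rotate, List.getElem_ofFn, List.getElem_ofFn,
        List.getElem_ofFn]
      congr 2
      apply Fin.ext
      have hi : i < N + 1 := by simpa using h2
      simp [Fin.val_add]
  rw [h, List.sum_ofFn]

end Pool.Agent.Helper73.ETSP
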