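import Pool.Agent.Helper73.ETSP.Conv

/-!
# Named operations on binary numbers

The library lemmas on binary numbers are collected in a class (with an instance in `Inst.lean`), so
that `fun_prop` only sees the named operations.
-/

set_option autoImplicit false

namespace Pool.Agent.Helper73.ETSP

open N68a2faeb Pool.Agent.Helper36.PT

/-- sum -/
def bAdd (x y : BN) : BN := BN.mk (x.val + y.val)
/-- truncated difference -/
def bSub (x y : BN) : BN := BN.mk (x.val - y.val)
/-- product -/
def bMul (x y : BN) : BN := BN.mk (x.val * y.val)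
/-- sum of a list -/
def bSum (l : List BN) : BN := BN.mk (l.map BN.val).sum
/-- from unary to binary -/
def bOf (n : ℕ) : BN := BN.mk n
/-- comparison -/
def bLe (x y : BN) : Prop := x.val ≤ y.val
/-- natural numbers as integers -/
def zOf (x : BN) : BZ := BZ.mk (x.val : ℤ)
/-- sum -/
def zAdd (x y : BZ) : BZ := BZ.mk (x.val + y.val)
/-- difference -/
def zSub (x y : BZ) : BZ := BZ.mk (x.val - y.val)
/-- negative -/
def zNeg (x : BZ) : BZ := BZ.mk (-x.val)
/-- absolute value -/
def zAbs (x : BZ) : BN := BN.mk x.val.natAbs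

/-- The named operations are computable in polynomial time. -/
class Arith : Prop where
  injBN : InjEnc BN
  injBZ : InjEnc BZ
  bAdd : ∀ {α : Type} [Enc α] {f g : α → BN} (hf : PolyTime f) (hg : PolyTime g), PolyTime (fun a => bAdd (f a) (g a))
  bSub : ∀ {α : Type} [Enc α] {f g : α → BN} (hf : PolyTime f) (hg : PolyTime g), PolyTime (fun a => bSub (f a) (g a))
  bMul : ∀ {α : Type} [Enc α] {f g : α → BN} (hf : PolyTime f) (hg : PolyTime g), PolyTime (fun a => bMul (f a) (g a))
  bSum : ∀ {α : Type} [Enc α] {l : α → List BN} (hf : PolyTime l), PolyTime (fun a => bSum (l a))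
  bOf : ∀ {α : Type} [Enc α] {f : α → ℕ} (hf : PolyTime f), PolyTime (fun a => bOf (f a))
  bLe : ∀ {α : Type} [Enc α] {f g : α → BN} (hf : PolyTime f) (hg : PolyTime g), PolyTime (fun a => bLe (f a) (g a))
  zOf : ∀ {α : Type} [Enc α] {f : α → BN} (hf : PolyTime f), PolyTime (fun a => zOf (f a))
  zAdd : ∀ {α : Type} [Enc α] {f g : α → BZ} (hf : PolyTime f) (hg : PolyTime g), PolyTime (fun a => zAdd (f a) (g a))
  zSub : ∀ {α : Type} [Enc α] {f g : α → BZ} (hf : PolyTime f) (hg : PolyTime g), PolyTime (fun a => zSub (f a) (g a))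
  zNeg : ∀ {α : Type} [Enc α] {f : α → BZ} (hf : PolyTime f), PolyTime (fun a => zNeg (f a))
  zAbs : ∀ {α : Type} [Enc α] {f : α → BZ} (hf : PolyTime f), PolyTime (fun a => zAbs (f a))

instance [Arith] : InjEnc BN := Arith.injBN
instance [Arith] : InjEnc BZ := Arith.injBZ

variable {α : Type} [Enc α] [Arith]

@[fun_prop] theorem PolyTime.bAdd {f g : α → BN} (hf : PolyTime f) (hg : PolyTime g) :
    PolyTime (fun a => bAdd (f a) (g a)) := Arith.bAdd hf hg
@[fun_prop] theorem PolyTime.bSub {f g : α → BN} (hf : PolyTime f) (hg : PolyTime g) :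
    PolyTime (fun a => bSub (f a) (g a)) := Arith.bSub hf hg
@[fun_prop] theorem PolyTime.bMul {f g : α → BN} (hf : PolyTime f) (hg : PolyTime g) :
    PolyTime (fun a => bMul (f a) (g a)) := Arith.bMul hf hg
@[fun_prop] theorem PolyTime.bSum {l : α → List BN} (hf : PolyTime l) :
    PolyTime (fun a => bSum (l a)) := Arith.bSum hf
@[fun_prop] theorem PolyTime.bOf {f : α → ℕ} (hf : PolyTime f) :
    PolyTime (fun a => bOf (f a)) := Arith.bOf hf
@[fun_prop] theorem PolyTime.bLe {f g : α → BN} (hf : PolyTime f) (hg : PolyTime g) :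
    PolyTime (fun a => bLe (f a) (g a)) := Arith.bLe hf hg
@[fun_prop] theorem PolyTime.zOf {f : α → BN} (hf : PolyTime f) :
    PolyTime (fun a => zOf (f a)) := Arith.zOf hf
@[fun_prop] theorem PolyTime.zAdd {f g : α → BZ} (hf : PolyTime f) (hg : PolyTime g) :
    PolyTime (fun a => zAdd (f a) (g a)) := Arith.zAdd hf hg
@[fun_prop] theorem PolyTime.zSub {f g : α → BZ} (hf : PolyTime f) (hg : PolyTime g) :
    PolyTime (fun a => zSub (f a) (g a)) := Arith.zSub hf hg
@[fun_prop] theorem PolyTime.zNeg {f : α → BZ} (hf : PolyTime f) :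
    PolyTime (fun a => zNeg (f a)) := Arith.zNeg hf
@[fun_prop] theorem PolyTime.zAbs {f : α → BZ} (hf : PolyTime f) :
    PolyTime (fun a => zAbs (f a)) := Arith.zAbs hf

end Pool.Agent.Helper73.ETSP
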