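import Pool.Agent.Helper73.ETSP.Ops

/-!
# The reductions are computable in polynomial time
-/

set_option autoImplicit false

namespace Pool.Agent.Helper73.ETSP

open N68a2faeb Pool.Agent.Helper36.PT

variable {α : Type} [Enc α]

/-- the values of a list of vectors -/
def vals (v : List (List BN)) : List (List ℕ) := v.map fun u => u.map BN.val

theorem vals_length (v : List (List BN)) : (vals v).length = v.length := by
  unfold vals
  rw [List.length_map]

/-- square of the length -/
def bNsq (v : List BN) : BN := bSum (v.map fun x => bMul x x)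

theorem bNsq_eq (v : List BN) : bNsq v = BN.mk (nsq (v.map BN.val)) := by
  unfold bNsq bSum nsq bMul
  simp only [List.map_map]
  congr 2
  refine List.map_congr_left fun x _ => ?_
  simp only [Function.comp]
  ring

@[fun_prop] theorem PolyTime.bNsq [Arith] {v : α → List BN} (hv : PolyTime v) :
    PolyTime (fun a => bNsq (v a)) := by
  unfold Pool.Agent.Helper73.ETSP.bNsq
  fun_prop

/-- side of the box -/
def bRho (v : List (List BN)) : BN := bAdd (BN.mk 1) (bSum (v.map bNsq))

theorem bRho_eq (v : List (List BN)) : bRho v = BN.mk (rho (vals v)) := by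
  unfold bRho bAdd bSum rho vals
  simp only [List.map_map]
  congr 3
  refine List.map_congr_left fun x _ => ?_
  simp only [Function.comp, bNsq_eq]

@[fun_prop] theorem PolyTime.bRho [Arith] {v : α → List (List BN)} (hv : PolyTime v) :
    PolyTime (fun a => bRho (v a)) := by
  unfold Pool.Agent.Helper73.ETSP.bRho
  fun_prop

/-- coordinates of the partial sums -/
def bCol (v : List (List BN)) (i j : ℕ) : BN :=
  bSum ((v.take i).map fun u => u.getD j (BN.mk 0))

theorem bCol_eq (v : List (List BN)) (i j : ℕ) : bCol v i j = BN.mk (col (vals v) i j) := by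
  unfold bCol col vals bSum
  rw [← List.map_take]
  simp only [List.map_map]
  congr 2
  refine List.map_congr_left fun u _ => ?_
  simp only [Function.comp]
  rw [List.getD_map]

@[fun_prop] theorem PolyTime.bCol [Arith] {v : α → List (List BN)} {i j : α → ℕ} (hv : PolyTime v)
    (hi : PolyTime i) (hj : PolyTime j) :
    PolyTime (fun a => bCol (v a) (i a) (j a)) := by
  unfold Pool.Agent.Helper73.ETSP.bCol
  fun_prop

open Classical in
/-- coordinates of the polygon -/
noncomputable def bCoord (d : ℕ) (v : List (List BN)) (i j : ℕ) : BZ :=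
  if i ≤ v.length then zOf (bCol v i j)
  else if i ≤ v.length + d then
    (if j < i - v.length then zOf (bRho v) else zOf (bCol v v.length j))
  else if j = 0 then
    (if i ≤ v.length + d + 3 then zOf (bAdd (bRho v) (bRho v)) else
      if i = v.length + d + 4 then zOf (bRho v) else BZ.mk 0)
  else if j = 1 then
    (if i = v.length + d + 1 then zOf (bRho v) else if i = v.length + d + 2 then BZ.mk 0 else
      zNeg (zOf (bRho v)))
  else (if j + 3 < i - (v.length + d) then BZ.mk 0 else zOf (bRho v))

theorem bCoord_eq (d : ℕ) (v : List (List BN)) (i j : ℕ) :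
    bCoord d v i j = BZ.mk (coord d (vals v) i j) := by
  unfold bCoord coord
  simp only [vals_length, bCol_eq, bRho_eq, zOf, bAdd, zNeg]
  split_ifs <;> refine congrArg BZ.mk ?_ <;> first | with_reducible rfl | (push_cast; ring)

@[fun_prop] theorem PolyTime.bCoord [Arith] (d : ℕ) {v : α → List (List BN)} {i j : α → ℕ}
    (hv : PolyTime v) (hi : PolyTime i) (hj : PolyTime j) :
    PolyTime (fun a => bCoord d (v a) (i a) (j a)) := by
  unfold Pool.Agent.Helper73.ETSP.bCoord
  fun_prop

/-- the points of the polygon -/
noncomputable def bPts (d : ℕ) (v : List (List BN)) : List (List BZ) :=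
  (List.range (v.length + 2 * d + 4)).map fun i => (List.range d).map fun j => bCoord d v i j

theorem bPts_eq (d : ℕ) (v : List (List BN)) :
    (bPts d v).map (fun p => p.map BZ.val) = pts d (vals v) := by
  unfold bPts pts
  simp only [List.map_map, vals_length]
  refine List.map_congr_left fun i _ => ?_
  simp only [Function.comp, List.map_map]
  refine List.map_congr_left fun j _ => ?_
  simp only [Function.comp, bCoord_eq]

@[fun_prop] theorem PolyTime.bPts [Arith] (d : ℕ) {v : α → List (List BN)} (hv : PolyTime v) :
    PolyTime (fun a => bPts d (v a)) := by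
  unfold Pool.Agent.Helper73.ETSP.bPts
  fun_prop

/-- the bound for the length of the tour -/
def bBound (d : ℕ) (v : List (List BN)) (k : BZ) : BZ :=
  zSub (zAdd k (zOf (bMul (bOf (2 * d + 4)) (bRho v))))
    (zOf (bSum ((List.range d).map fun j => bCol v v.length j)))

theorem bBound_eq (d : ℕ) (v : List (List BN)) (k : BZ) :
    (bBound d v k).val = bound d (vals v) k.val := by
  unfold bBound bound
  simp only [zSub, zAdd, zOf, bMul, bOf, bRho_eq, bSum, bCol_eq, List.map_map, vals_length]
  refine congrArg₂ (fun x y : ℤ => x - y) ?_ ?_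
  · push_cast
    ring
  · refine congrArg (fun l : List ℕ => ((List.sum l : ℕ) : ℤ)) ?_
    refine List.map_congr_left fun c _ => ?_
    simp only [Function.comp]

@[fun_prop] theorem PolyTime.bBound [Arith] (d : ℕ) {v : α → List (List BN)} {k : α → BZ}
    (hv : PolyTime v) (hk : PolyTime k) : PolyTime (fun a => bBound d (v a) (k a)) := by
  unfold Pool.Agent.Helper73.ETSP.bBound
  fun_prop

/-! ### from sums of square roots to tours -/

/-- the instance of the travelling salesman problem -/
noncomputable def red1 (d : ℕ) (x : (List BN × BZ) × List (List BN)) : List (List BZ) × BZ :=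
  (bPts d x.2, bBound d x.2 x.1.2)

theorem polyTime_red1 [Arith] (d : ℕ) : PolyTime (red1 d) := by
  unfold red1
  fun_prop

/-- the condition on the certificate -/
def cond1 (d : ℕ) (x : (List BN × BZ) × List (List BN)) : Prop :=
  x.1.1 ≠ [] ∧ x.2.map bNsq = x.1.1.filter (fun n => !(dec (n = BN.mk 0))) ∧
    ∀ u ∈ x.2, u.length = d

theorem polyTime_cond1 [Arith] (d : ℕ) : PolyTime (cond1 d) := by
  unfold cond1
  fun_prop

/-! ### from tours to sums of square roots -/

/-- square of the distance -/
def bDist (p q : List BZ) : BN :=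
  bSum ((p.zip q).map fun c => bMul (zAbs (zSub c.1 c.2)) (zAbs (zSub c.1 c.2)))

theorem bDist_eq (p q : List BZ) : bDist p q = BN.mk (sqDist (p.map BZ.val) (q.map BZ.val)) := by
  unfold bDist bSum sqDist bMul zAbs zSub
  simp only [List.map_map]
  refine congrArg (fun l => BN.mk (List.sum l)) ?_
  rw [List.zipWith_map, ← List.map_uncurry_zip_eq_zipWith]
  refine List.map_congr_left fun c _ => ?_
  simp only [Function.comp, Function.uncurry]
  exact (sq _).symm

@[fun_prop] theorem PolyTime.bDist [Arith] {p q : α → List BZ} (hp : PolyTime p) (hq : PolyTime q) :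
    PolyTime (fun a => bDist (p a) (q a)) := by
  unfold Pool.Agent.Helper73.ETSP.bDist
  fun_prop

/-- the instance of the sum of square roots problem -/
def red2 (x : (List (List BZ) × BZ) × List (List BZ)) : List BN × BZ :=
  (List.zipWith bDist x.2 (x.2.tail ++ x.2.take 1), x.1.2)

theorem polyTime_red2 [Arith] : PolyTime red2 := by
  unfold red2
  fun_prop

/-- no repetitions -/
def NoRep (l : List (List BZ)) : Prop := ∀ i < l.length, ∀ j < i, l[i]? ≠ l[j]?

theorem PolyTime.noRep [Arith] {l : α → List (List BZ)} (hl : PolyTime l) :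
    PolyTime (fun a => NoRep (l a)) := by
  unfold NoRep
  fun_prop

/-- the condition on the certificate -/
def cond2 (d : ℕ) (x : (List (List BZ) × BZ) × List (List BZ)) : Prop :=
  x.1.1 ≠ [] ∧ NoRep x.1.1 ∧ (∀ p ∈ x.1.1, p.length = d) ∧ NoRep x.2 ∧
    x.2.length = x.1.1.length ∧ ∀ p ∈ x.2, p ∈ x.1.1

theorem polyTime_cond2 [Arith] (d : ℕ) : PolyTime (cond2 d) := by
  have v1 : PolyTime (fun x : (List (List BZ) × BZ) × List (List BZ) => x.1.1 ≠ []) := by
    fun_prop
  have v2 : PolyTime (fun x : (List (List BZ) × BZ) × List (List BZ) => NoRep x.1.1) :=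
    PolyTime.noRep (by fun_prop)
  have v3 : PolyTime (fun x : (List (List BZ) × BZ) × List (List BZ) =>
    ∀ p ∈ x.1.1, p.length = d) := by fun_prop
  have v4 : PolyTime (fun x : (List (List BZ) × BZ) × List (List BZ) => NoRep x.2) :=
    PolyTime.noRep (by fun_prop)
  have v5 : PolyTime (fun x : (List (List BZ) × BZ) × List (List BZ) =>
    x.2.length = x.1.1.length) := by fun_prop
  have v6 : PolyTime (fun x : (List (List BZ) × BZ) × List (List BZ) =>
    ∀ p ∈ x.2, p ∈ x.1.1) := by fun_prop
  exact v1.pAnd (v2.pAnd (v3.pAnd (v4.pAnd (v5.pAnd v6))))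

end Pool.Agent.Helper73.ETSP
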