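import Pool.Agent.Helper73.ETSP.Defs

/-!
# Modules

Statements to be proved (this file is not imported by anything that is handed in).
Library: `Pool.Agent.Helper68.PT.Ext2` and its imports (namespace `Pool.Agent.Helper36.PT`),
`fun_prop` proves `PolyTime`; `PolyTime.iterate` (Helper14/PT/C.lean), `PolyTime.mk`,
`PolyTime.of_enc`, `PolyTime.congr`, `PolyTime.comp`, `PolyTime.recN`... A predicate `Q : α → Prop`
is decidable in polynomial time if `PolyTime Q` (encoding of `Prop` by one bit).
-/

set_option autoImplicit false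
set_option linter.unusedVariables false

namespace Pool.Agent.Helper73.ETSP

open N68a2faeb Pool.Agent.Helper36.PT

variable {α β γ : Type} [Enc α] [Enc β] [Enc γ]

/-! ## ST-1 (Machine.lean): a function computed by a TM2 machine in polynomial time is `PolyTime` -/

theorem polyTime_of_TM {f : α → β} (h : Nonempty (Turing.TM2ComputableInPolyTime
    (enc : α → List Bool) (enc : β → List Bool) f)) : PolyTime f := sorry

/-! ## ST-2 (Bits.lean): binary natural numbers, bits -/

theorem esz_bn_mono {m n : ℕ} (h : m ≤ n) : esz (BN.mk m) ≤ esz (BN.mk n) := sorry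
theorem esz_bn_le {m k : ℕ} : esz (BN.mk m) ≤ k ↔ m < 2 ^ k := sorry
instance : InjEnc BN := sorry
instance : Dec BN := sorry

/-- the bit `i` (`List.getD` of `encodeNat`) -/
@[fun_prop] theorem PolyTime.bnTestBit {f : α → BN} {i : α → ℕ} (hf : PolyTime f) (hi : PolyTime i) :
    PolyTime (fun a => (f a).val.testBit (i a)) := sorry

/-- the number with given bits -/
@[fun_prop] theorem PolyTime.bnOfBits {n : α → ℕ} {c : α → ℕ → Bool} (hn : PolyTime n)
    (hc : PolyTime (fun p : α × ℕ => c p.1 p.2)) :
    PolyTime (fun a => BN.mk (∑ i ∈ Finset.range (n a), (c a i).toNat * 2 ^ i)) := sorry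

/-- the number of bits, as a unary number -/
@[fun_prop] theorem PolyTime.bnSize {f : α → BN} (hf : PolyTime f) :
    PolyTime (fun a => (f a).val.size) := sorry

/-- conversion from unary to binary -/
@[fun_prop] theorem PolyTime.bnOfNat {f : α → ℕ} (hf : PolyTime f) :
    PolyTime (fun a => BN.mk (f a)) := sorry

/-! ## ST-3 (Add.lean): addition, comparison, sums (uses ST-2) -/

@[fun_prop] theorem PolyTime.bnAdd {f g : α → BN} (hf : PolyTime f) (hg : PolyTime g) :
    PolyTime (fun a => BN.mk ((f a).val + (g a).val)) := sorry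

@[fun_prop] theorem PolyTime.pBnLe {f g : α → BN} (hf : PolyTime f) (hg : PolyTime g) :
    PolyTime (fun a => (f a).val ≤ (g a).val) := sorry

@[fun_prop] theorem PolyTime.pBnLt {f g : α → BN} (hf : PolyTime f) (hg : PolyTime g) :
    PolyTime (fun a => (f a).val < (g a).val) := sorry

@[fun_prop] theorem PolyTime.pBnEq {f g : α → BN} (hf : PolyTime f) (hg : PolyTime g) :
    PolyTime (fun a => (f a).val = (g a).val) := sorry

@[fun_prop] theorem PolyTime.bnSum {l : α → List BN} (hl : PolyTime l) :
    PolyTime (fun a => BN.mk ((l a).map BN.val).sum) := sorry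

/-! ## ST-4 (Mul.lean): truncated subtraction and multiplication (uses ST-2, ST-3) -/

@[fun_prop] theorem PolyTime.bnSub {f g : α → BN} (hf : PolyTime f) (hg : PolyTime g) :
    PolyTime (fun a => BN.mk ((f a).val - (g a).val)) := sorry

@[fun_prop] theorem PolyTime.bnMul {f g : α → BN} (hf : PolyTime f) (hg : PolyTime g) :
    PolyTime (fun a => BN.mk ((f a).val * (g a).val)) := sorry

/-! ## ST-5 (Int.lean): binary integers (uses ST-2, ST-4) -/

instance : InjEnc BZ := sorry
instance : Dec BZ := sorry

/-- the difference of two natural numbers -/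
@[fun_prop] theorem PolyTime.bzDiff {f g : α → BN} (hf : PolyTime f) (hg : PolyTime g) :
    PolyTime (fun a => BZ.mk (((f a).val : ℤ) - ((g a).val : ℤ))) := sorry
@[fun_prop] theorem PolyTime.bzToNat {f : α → BZ} (hf : PolyTime f) :
    PolyTime (fun a => BN.mk (f a).val.toNat) := sorry
@[fun_prop] theorem PolyTime.bzOfNat {f : α → BN} (hf : PolyTime f) :
    PolyTime (fun a => BZ.mk ((f a).val : ℤ)) := sorry
@[fun_prop] theorem PolyTime.bzNatAbs {f : α → BZ} (hf : PolyTime f) :
    PolyTime (fun a => BN.mk (f a).val.natAbs) := sorry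
@[fun_prop] theorem PolyTime.bzNeg {f : α → BZ} (hf : PolyTime f) :
    PolyTime (fun a => BZ.mk (-(f a).val)) := sorry
@[fun_prop] theorem PolyTime.bzAdd {f g : α → BZ} (hf : PolyTime f) (hg : PolyTime g) :
    PolyTime (fun a => BZ.mk ((f a).val + (g a).val)) := sorry
@[fun_prop] theorem PolyTime.bzSub {f g : α → BZ} (hf : PolyTime f) (hg : PolyTime g) :
    PolyTime (fun a => BZ.mk ((f a).val - (g a).val)) := sorry
@[fun_prop] theorem PolyTime.bzMul {f g : α → BZ} (hf : PolyTime f) (hg : PolyTime g) :
    PolyTime (fun a => BZ.mk ((f a).val * (g a).val)) := sorry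
@[fun_prop] theorem PolyTime.pBzLe {f g : α → BZ} (hf : PolyTime f) (hg : PolyTime g) :
    PolyTime (fun a => (f a).val ≤ (g a).val) := sorry
/-- size -/
theorem esz_bz (z : ℤ) : esz (BZ.mk z) = 2 * esz (BN.mk z.toNat) + 1 + esz (BN.mk (-z).toNat) := sorry

/-! ## ST-6 (Codec.lean): decoding of words, pairs and lists -/

instance : Dec Word := sorry
instance : Dec Bool := sorry
instance : Dec ℕ := sorry
instance [Dec α] [Dec β] : Dec (α × β) := sorry
instance [Dec α] : Dec (List α) := sorry

/-! ## ST-7 (Closure.lean): the class NP and reductions with a certificate (uses ST-1, ST-6) -/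

theorem np_closure [Dec α] [Dec γ] [InjEnc β] (S : Set α) (T : Set β)
    (f : α × γ → β) (Q : α × γ → Prop) (hf : PolyTime f) (hQ : PolyTime Q) (e : ℕ)
    (h1 : ∀ a ∈ S, ∃ c, esz c ≤ (esz a + 2) ^ e ∧ Q (a, c) ∧ f (a, c) ∈ T)
    (h2 : ∀ a c, Q (a, c) → f (a, c) ∈ T → a ∈ S) (hT : langE T ∈ NP) : langE S ∈ NP := sorry

end Pool.Agent.Helper73.ETSP
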